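import Pool.Agent.Helper94.Tri.Fill12

/-!
TR-5. Components.
-/

set_option linter.dupNamespace false

namespace Pool.Agent.Helper94.Tri

private theorem cp_closed {c : Col} {r : ℤ} {C : Finset T3} (h : IsComp c r C) {t t' : T3}
    (ht : t ∈ C) (hc : Conn c t t') : t' ∈ C := by
  induction hc with
  | refl => exact ht
  | tail _ h2 ih => exact h.2.2.1 _ ih _ h2.2.1 h2.2.2

theorem comp_unique {c : Col} {r r' : ℤ} {C C' : Finset T3} (h : IsComp c r C)
    (h' : IsComp c r' C') {t : T3} (ht : t ∈ C) (ht' : t ∈ C') : C = C' := by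
  apply Finset.Subset.antisymm
  · intro u hu
    exact cp_closed h' ht' (h.2.2.2.1 t ht u hu)
  · intro u hu
    exact cp_closed h ht (h'.2.2.2.1 t ht' u hu)

private theorem cp_bit {u : V} (h : Bit u) :
    (u.1 = 0 ∨ u.1 = 1) ∧ (u.2.1 = 0 ∨ u.2.1 = 1) ∧ (u.2.2 = 0 ∨ u.2.2 = 1) := h

private theorem cp_step {R : ℤ} {x p q : V} (hp : p ∈ cube x R) (h : Bit (q - p)) :
    q ∈ cube x (R + 1) := by
  rw [mem_cube] at hp ⊢
  obtain ⟨h1, h2, h3⟩ := cp_bit h
  simp only [Prod.fst_sub, Prod.snd_sub, abs_le] at *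
  omega

private theorem cp_mem {c : Col} {r : ℤ} {C : Finset T3} (h : IsComp c r C) {x : V} {t : T3}
    (ht : t ∈ C) (hx : t.1 ∈ cube x r) : C ∈ comps c r x := by
  classical
  unfold comps
  rw [Finset.mem_filter, Finset.mem_powerset]
  refine ⟨?_, h⟩
  intro u hu
  have h1 := h.2.2.2.2 t ht u hu
  have h2 := (h.2.1 u hu).1
  have h3 : u.1 ∈ cube x (2 * r) := by
    rw [mem_cube] at *
    simp only [abs_le] at *
    omega
  unfold TB
  rw [Finset.mem_filter, Finset.mem_product, Finset.mem_product]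
  exact ⟨⟨h3, cp_step h3 h2.1.1, cp_step h3 h2.2.2.1⟩, h2⟩

theorem mem_comps_of_near {c : Col} {r : ℤ} (hr : 0 ≤ r) {C : Finset T3} (h : IsComp c r C)
    {x : V} {t : T3} (ht : t ∈ C) (hx : t.1 ∈ cube x r) : C ∈ comps c r x :=
  cp_mem h ht hx

theorem mem_comps_of_inBox {c : Col} {r : ℤ} (hr : 0 ≤ r) {C : Finset T3} (h : IsComp c r C)
    {x : V} (hx : InBox (corner r C) (2 * r) x) : C ∈ comps c r x := by
  classical
  have hne := h.1
  refine cp_mem h hne.choose_spec ?_
  rw [mem_cube]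
  unfold corner at hx
  rw [dif_pos hne] at hx
  obtain ⟨h1, h2, h3⟩ := hx
  simp only [Prod.fst_sub, Prod.snd_sub] at h1 h2 h3
  simp only [abs_le]
  omega

theorem isComp_of_mem_comps {c : Col} {r : ℤ} {x : V} {C : Finset T3} (h : C ∈ comps c r x) :
    IsComp c r C := by
  classical
  unfold comps at h
  exact (Finset.mem_filter.1 h).2

theorem comps_subset {c : Col} {r : ℤ} {x : V} {C : Finset T3}
    (h : C ∈ comps c r x) {t : T3} (ht : t ∈ C) : t.1 ∈ cube x (2 * r) := by
  classical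
  unfold comps at h
  have h1 := Finset.mem_powerset.1 (Finset.mem_filter.1 h).1 ht
  unfold TB at h1
  exact (Finset.mem_product.1 (Finset.mem_filter.1 h1).1).1

private noncomputable def cpB : Finset V :=
  ({0, 1} : Finset ℤ) ×ˢ (({0, 1} : Finset ℤ) ×ˢ ({0, 1} : Finset ℤ))

private theorem cp_memB {u : V} (h : Bit u) : u ∈ cpB := by
  unfold cpB
  simp only [Finset.mem_product, Finset.mem_insert, Finset.mem_singleton]
  exact h

private theorem cp_card_cube (x : V) {R : ℤ} (hR : 0 ≤ R) :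
    ((cube x R).card : ℤ) = (2 * R + 1) ^ 3 := by
  unfold cube
  rw [Finset.card_product, Finset.card_product, Int.card_Icc, Int.card_Icc, Int.card_Icc]
  have h : ∀ y : ℤ, ((y + R + 1 - (y - R)).toNat : ℤ) = 2 * R + 1 := by
    intro y
    rw [Int.toNat_of_nonneg (by omega)]
    ring
  push_cast [h]
  ring

private theorem cp_card_TB {x : V} {R : ℤ} (hR : 0 ≤ R) :
    ((TB x R).card : ℤ) ≤ 64 * (2 * R + 1) ^ 3 := by
  classical
  have h1 : (TB x R).card ≤ (cube x R ×ˢ (cpB ×ˢ cpB)).card := by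
    refine Finset.card_le_card_of_injOn (fun t : T3 => (t.1, t.2.1 - t.1, t.2.2 - t.1)) ?_ ?_
    · intro t ht
      have ht' : t ∈ TB x R := ht
      unfold TB at ht'
      rw [Finset.mem_filter, Finset.mem_product] at ht'
      rw [Finset.mem_coe, Finset.mem_product, Finset.mem_product]
      exact ⟨ht'.1.1, cp_memB ht'.2.1.1, cp_memB ht'.2.2.2.1⟩
    · intro t _ t' _ h
      simp only [Prod.mk.injEq] at h
      obtain ⟨h1, h2, h3⟩ := h
      rw [h1] at h2 h3
      exact Prod.ext h1 (Prod.ext (sub_left_inj.1 h2) (sub_left_inj.1 h3))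
  have h2 : cpB.card = 8 := by
    unfold cpB
    rw [Finset.card_product, Finset.card_product]
    rfl
  rw [Finset.card_product, Finset.card_product, h2] at h1
  have h3 : ((TB x R).card : ℤ) ≤ (((cube x R).card * (8 * 8) : ℕ) : ℤ) := by exact_mod_cast h1
  push_cast at h3
  rw [cp_card_cube x hR] at h3
  linarith

theorem card_comps_le (c : Col) {r : ℤ} (hr : 0 ≤ r) (x : V) :
    ((comps c r x).card : ℤ) ≤ 64 * (4 * r + 1) ^ 3 := by
  classical
  have hne : ∀ C ∈ comps c r x, C.Nonempty := fun C hC => (isComp_of_mem_comps hC).1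
  choose! f hf using hne
  have h1 : (comps c r x).card ≤ (TB x (2 * r)).card := by
    refine Finset.card_le_card_of_injOn f ?_ ?_
    · intro C hC
      have hC' : C ∈ comps c r x := hC
      have := hf C hC'
      unfold comps at hC'
      exact Finset.mem_powerset.1 (Finset.mem_filter.1 hC').1 this
    · intro C hC C' hC' h
      have h2 := hf C hC
      have h3 := hf C' hC'
      rw [← h] at h3
      exact comp_unique (isComp_of_mem_comps hC) (isComp_of_mem_comps hC') h2 h3
  have h2 := cp_card_TB (x := x) (R := 2 * r) (by omega)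
  have h3 : ((comps c r x).card : ℤ) ≤ ((TB x (2 * r)).card : ℤ) := by exact_mod_cast h1
  have h4 : 2 * (2 * r) + 1 = 4 * r + 1 := by ring
  rw [h4] at h2
  linarith

end Pool.Agent.Helper94.Tri
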