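import Pool.Agent.Helper94.Tri.Defs

/-!
TR-3. Elementary facts about `lift`, `del`, `om` (all by `decide`/case analysis over `ZMod 3`:
generalize the colour values, `revert`, `decide`; for the statements with integer division first
prove `∃ m, del c p q + del c q r - del c p r = 3 * m ∧ |m| ≤ 1` by `decide`).

`om_congr`, `Tc_congr`: the differences `c' q - c' p` and `c q - c p` agree.
-/

set_option linter.dupNamespace false

namespace Pool.Agent.Helper94.Tri

private theorem lift_cast : ∀ z : ZMod 3, ((lift z : ℤ) : ZMod 3) = z := by decide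

private theorem lift_abs : ∀ z : ZMod 3, |lift z| ≤ 1 := by decide

private theorem lift_three : ∀ x y z : ZMod 3,
    3 * ((lift (y - x) + lift (z - y) - lift (z - x)) / 3)
      = lift (y - x) + lift (z - y) - lift (z - x) := by decide

private theorem lift_om_ne : ∀ x y z : ZMod 3,
    (lift (y - x) + lift (z - y) - lift (z - x)) / 3 ≠ 0 → x ≠ y ∧ y ≠ z ∧ x ≠ z := by decide

private theorem lift_om_abs : ∀ x y z : ZMod 3,
    |(lift (y - x) + lift (z - y) - lift (z - x)) / 3| ≤ 1 := by decide

theorem del_cast (c : Col) (p q : V) : ((del c p q : ℤ) : ZMod 3) = c q - c p :=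
  lift_cast _

theorem abs_del_le (c : Col) (p q : V) : |del c p q| ≤ 1 := lift_abs _

theorem three_om (c : Col) (p q r : V) :
    3 * om c p q r = del c p q + del c q r - del c p r := lift_three _ _ _

theorem om_ne (c : Col) (p q r : V) (h : om c p q r ≠ 0) :
    c p ≠ c q ∧ c q ≠ c r ∧ c p ≠ c r := lift_om_ne _ _ _ h

theorem abs_om_le (c : Col) (p q r : V) : |om c p q r| ≤ 1 := lift_om_abs _ _ _

theorem om_tet (c : Col) (p q r s : V) :
    om c q r s - om c p r s + om c p q s - om c p q r = 0 := by
  have h1 := three_om c q r s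
  have h2 := three_om c p r s
  have h3 := three_om c p q s
  have h4 := three_om c p q r
  omega

theorem om_congr {c c' : Col} {k : ZMod 3} {p q r : V} (hp : c' p = c p + k)
    (hq : c' q = c q + k) (hr : c' r = c r + k) : om c' p q r = om c p q r := by
  simp only [om, del, hp, hq, hr, add_sub_add_right_eq_sub]

theorem Tc_congr {c c' : Col} {k : ZMod 3} {t : T3} (hp : c' t.1 = c t.1 + k)
    (hq : c' t.2.1 = c t.2.1 + k) (hr : c' t.2.2 = c t.2.2 + k) : Tc c' t ↔ Tc c t := by
  unfold Tc
  rw [hp, hq, hr]
  simp only [ne_eq, add_left_inj]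

end Pool.Agent.Helper94.Tri
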