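import Pool.Agent.Helper94.Tri.Fill12
import Pool.Agent.Helper94.Tri.Om

/-!
TR-4. The flux of a component is closed.

Step 1. For `Tet p q r s` and `IsComp c r0 C`:
`omC c C q r s - omC c C p r s + omC c C p q s - omC c C p q r = 0`. If none of the four faces is in
`C` all terms are `0`. If some face `f` is in `C`, then every face `g` with three distinct colours
is in `C` (clause 3 of `IsComp`, with `Nb f g` given by this tetrahedron; `Tri g` holds because
`Tet` contains all six `Step`s), and for the faces without three distinct colours `om = 0`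
(`om_ne`); so `omC = om` on all four faces and `om_tet` applies.

Step 2 (cube). Apply Step 1 to the six tetrahedra of the unit cube at `x`.

Step 3 (support). By clause 5 of `IsComp`.

`abs_W13_le`: `|omC| ≤ 1` by `abs_om_le`.
-/

set_option linter.dupNamespace false

namespace Pool.Agent.Helper94.Tri

private theorem fluxC_face {c : Col} {r0 : ℤ} {C : Finset T3} (h : IsComp c r0 C) {p q r s : V}
    {f : T3} (hT : Tet p q r s) (hf : IsFace f p q r s) (hfC : f ∈ C) {a b d : V}
    (hg : IsFace (a, b, d) p q r s) (hab : Step a b) (hbd : Step b d) (had : Step a d) :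
    omC c C a b d = om c a b d := by
  unfold omC
  split_ifs with hm
  · rfl
  · by_contra hne
    have hne' : om c a b d ≠ 0 := fun h0 => hne h0.symm
    obtain ⟨h1, h2, h3⟩ := om_ne c a b d hne'
    exact hm (h.2.2.1 f hfC (a, b, d) ⟨⟨hab, hbd, had⟩, h1, h2, h3⟩
      ⟨p, q, r, s, hT, hf, hg⟩)

private theorem fluxC_tet {c : Col} {r0 : ℤ} {C : Finset T3} (h : IsComp c r0 C) {p q r s : V}
    (hT : Tet p q r s) :
    omC c C q r s - omC c C p r s + omC c C p q s - omC c C p q r = 0 := by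
  obtain ⟨hpq, hpr, hps, hqr, hqs, hrs⟩ := id hT
  have f1 : IsFace (q, r, s) p q r s := Or.inl rfl
  have f2 : IsFace (p, r, s) p q r s := Or.inr (Or.inl rfl)
  have f3 : IsFace (p, q, s) p q r s := Or.inr (Or.inr (Or.inl rfl))
  have f4 : IsFace (p, q, r) p q r s := Or.inr (Or.inr (Or.inr rfl))
  have key : ∀ f : T3, IsFace f p q r s → f ∈ C →
      omC c C q r s - omC c C p r s + omC c C p q s - omC c C p q r = 0 := by
    intro f hf hfC
    rw [fluxC_face h hT hf hfC f1 hqr hrs hqs, fluxC_face h hT hf hfC f2 hpr hrs hps,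
      fluxC_face h hT hf hfC f3 hpq hqs hps, fluxC_face h hT hf hfC f4 hpq hqr hpr]
    exact om_tet c p q r s
  by_cases h1 : (q, r, s) ∈ C
  · exact key _ f1 h1
  by_cases h2 : (p, r, s) ∈ C
  · exact key _ f2 h2
  by_cases h3 : (p, q, s) ∈ C
  · exact key _ f3 h3
  by_cases h4 : (p, q, r) ∈ C
  · exact key _ f4 h4
  simp [omC, h1, h2, h3, h4]

private theorem fluxC_mem {c : Col} {r : ℤ} {C : Finset T3} (h : IsComp c r C) {t : T3}
    (ht : t ∈ C) : InBox (corner r C) (2 * r) t.1 := by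
  have hne := h.1
  unfold corner
  rw [dif_pos hne]
  have h0 := hne.choose_spec
  have := h.2.2.2.2 _ h0 t ht
  unfold cube at this
  simp only [Finset.mem_product, Finset.mem_Icc] at this
  unfold InBox
  simp only [Prod.fst_sub, Prod.snd_sub]
  obtain ⟨⟨a1, a2⟩, ⟨a3, a4⟩, a5, a6⟩ := this
  refine ⟨⟨by linarith, by linarith⟩, ⟨by linarith, by linarith⟩, by linarith, by linarith⟩

private theorem fluxC_ne {c : Col} {r : ℤ} {C : Finset T3} (h : IsComp c r C) {a b d b' : V}
    (hn : omC c C a b d - omC c C a b' d ≠ 0) : InBox (corner r C) (2 * r) a := by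
  by_cases h1 : (a, b, d) ∈ C
  · exact fluxC_mem h h1
  by_cases h2 : (a, b', d) ∈ C
  · exact fluxC_mem h h2
  exact absurd (by simp [omC, h1, h2]) hn

theorem flux_of_comp {c : Col} {r : ℤ} {C : Finset T3} (h : IsComp c r C) :
    Flux (W12 c C) (W13 c C) (W23 c C) (corner r C) (2 * r) := by
  refine ⟨fun x hx => fluxC_ne h hx, fun x hx => fluxC_ne h hx, fun x hx => fluxC_ne h hx,
    fun x => ?_⟩
  have st : ∀ u v : V, Bit (v - u) → u ≠ v → Step u v := fun u v h1 h2 => ⟨h1, h2⟩
  have E21 : x + e2 + e1 = x + e1 + e2 := by abel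
  have E31 : x + e3 + e1 = x + e1 + e3 := by abel
  have E32 : x + e3 + e2 = x + e2 + e3 := by abel
  have E132 : x + e1 + e3 + e2 = x + e1 + e2 + e3 := by abel
  have E231 : x + e2 + e3 + e1 = x + e1 + e2 + e3 := by abel
  have tet : ∀ u v w : V, (u = e1 ∧ v = e2 ∧ w = e3) ∨ (u = e1 ∧ v = e3 ∧ w = e2) ∨
      (u = e2 ∧ v = e1 ∧ w = e3) ∨ (u = e2 ∧ v = e3 ∧ w = e1) ∨ (u = e3 ∧ v = e1 ∧ w = e2) ∨
      (u = e3 ∧ v = e2 ∧ w = e1) → Tet x (x + u) (x + u + v) (x + u + v + w) := by
    intro u v w huvw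
    rcases huvw with ⟨rfl, rfl, rfl⟩ | ⟨rfl, rfl, rfl⟩ | ⟨rfl, rfl, rfl⟩ | ⟨rfl, rfl, rfl⟩ |
      ⟨rfl, rfl, rfl⟩ | ⟨rfl, rfl, rfl⟩ <;>
    · refine ⟨?_, ?_, ?_, ?_, ?_, ?_⟩ <;>
      · refine st _ _ ?_ ?_
        · simp [Bit, e1, e2, e3]
        · simp [e1, e2, e3, Prod.ext_iff]
  have t123 := fluxC_tet h (tet e1 e2 e3 (by simp))
  have t132 := fluxC_tet h (tet e1 e3 e2 (by simp))
  have t213 := fluxC_tet h (tet e2 e1 e3 (by simp))
  have t231 := fluxC_tet h (tet e2 e3 e1 (by simp))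
  have t312 := fluxC_tet h (tet e3 e1 e2 (by simp))
  have t321 := fluxC_tet h (tet e3 e2 e1 (by simp))
  simp only [E21, E31, E32, E132, E231] at t123 t132 t213 t231 t312 t321
  unfold W12 W13 W23
  simp only [E21, E31, E32, E132, E231]
  linarith

theorem abs_W13_le (c : Col) (C : Finset T3) (x : V) : |W13 c C x| ≤ 2 := by
  have h : ∀ p q r : V, |omC c C p q r| ≤ 1 := by
    intro p q r
    unfold omC
    split_ifs
    · exact abs_om_le c p q r
    · simp
  unfold W13
  have h1 := abs_le.1 (h x (x + e1) (x + e1 + e3))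
  have h2 := abs_le.1 (h x (x + e3) (x + e1 + e3))
  rw [abs_le]
  constructor <;> linarith

end Pool.Agent.Helper94.Tri
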