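import Pool.Agent.Helper94.Tri.Fill12
import Pool.Agent.Helper94.Tri.Om
import Pool.Agent.Helper94.Tri.FluxComp
import Pool.Agent.Helper94.Tri.Comps

/-!
TR-8. Bound and residue of the corrected differences.
-/

set_option linter.dupNamespace false

namespace Pool.Agent.Helper94.Tri

theorem abs_D1_le (c : Col) {r : ℤ} (hr : 1 ≤ r) (x : V) :
    |D1 c r x| ≤ 400 * (4 * r + 1) ^ 4 := by
  have h1 : |bet1 c r x| ≤ ((comps c r x).card : ℤ) * (2 * (2 * r + 1)) := by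
    unfold bet1
    refine (Finset.abs_sum_le_sum_abs _ _).trans ?_
    rw [← nsmul_eq_mul]
    exact Finset.sum_le_card_nsmul _ _ _ fun C _ =>
      fill1_bound (by omega) (fun y => abs_W13_le c C y) x
  have h2 := card_comps_le c (by omega : (0 : ℤ) ≤ r) x
  have h3 : |bet1 c r x| ≤ 64 * (4 * r + 1) ^ 3 * (2 * (2 * r + 1)) :=
    h1.trans (mul_le_mul_of_nonneg_right h2 (by omega))
  have h4 := abs_del_le c x (x + e1)
  unfold D1
  have h5 : |del c x (x + e1) - 3 * bet1 c r x| ≤ 1 + 3 * |bet1 c r x| := by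
    refine (abs_sub _ _).trans ?_
    rw [abs_mul]
    have : |(3 : ℤ)| = 3 := rfl
    rw [this]
    linarith
  refine h5.trans ?_
  have h6 : (0 : ℤ) < 4 * r + 1 := by omega
  have h7 : (1 : ℤ) ≤ (4 * r + 1) ^ 4 := one_le_pow₀ (by omega)
  have h8 : (4 * r + 1) ^ 3 * (2 * r + 1) ≤ (4 * r + 1) ^ 4 := by
    rw [pow_succ (4 * r + 1) 3]
    exact mul_le_mul_of_nonneg_left (by omega) (by positivity)
  have h9 : 64 * (4 * r + 1) ^ 3 * (2 * (2 * r + 1)) = 128 * ((4 * r + 1) ^ 3 * (2 * r + 1)) := by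
    ring
  rw [h9] at h3
  linarith

private theorem bd_cast (m b : ℤ) (z : ZMod 3) (h : ((m : ℤ) : ZMod 3) = z) :
    ((m - 3 * b : ℤ) : ZMod 3) = z := by
  push_cast
  have h3 : (3 : ZMod 3) = 0 := rfl
  rw [h3, zero_mul, sub_zero, h]

theorem D1_cast (c : Col) (r : ℤ) (x : V) : ((D1 c r x : ℤ) : ZMod 3) = c (x + e1) - c x :=
  bd_cast _ _ _ (del_cast c x (x + e1))

theorem D2_cast (c : Col) (r : ℤ) (x : V) : ((D2 c r x : ℤ) : ZMod 3) = c (x + e2) - c x :=
  bd_cast _ _ _ (del_cast c x (x + e2))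

theorem D3_cast (c : Col) (r : ℤ) (x : V) : ((D3 c r x : ℤ) : ZMod 3) = c (x + e3) - c x :=
  bd_cast _ _ _ (del_cast c x (x + e3))

end Pool.Agent.Helper94.Tri
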