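import Pool.Agent.Helper94.Tri.Fill12

/-!
TR-17. Counting. For a fixed first element `(u, i)` (there are `N^3 * 2N` of them) the map
`(u', i') ↦ (i', pt (u', i'))` is injective, with values in `range (2N) ×ˢ cube (pt (u, i)) (2*R)`,
which has `2N * (4*R+1)^3` elements. So the total is at most `N^3 * 2N * 2N * (4*R+1)^3`
(`Finset.card_sigma`/`Finset.card_filter_product` or `Finset.card_le_mul_card_image`-type lemma).
-/

set_option linter.dupNamespace false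

namespace Pool.Agent.Helper94.Tri

/-- the index set of the points `u` of the box and the steps `i` -/
noncomputable def Idx (N : ℕ) : Finset (V × ℕ) :=
  (Finset.Ico (0 : ℤ) N ×ˢ (Finset.Ico (0 : ℤ) N ×ˢ Finset.Ico (0 : ℤ) N)) ×ˢ
    Finset.range (2 * N)

/-- the point reached from `u` after `i` steps in direction 1 -/
def pt (q : V × ℕ) : V := (q.1.1 + q.2, q.1.2.1, q.1.2.2)

theorem card_pairs (N : ℕ) {R : ℤ} (hR : 0 ≤ R) :
    ((((Idx N) ×ˢ (Idx N)).filter fun q => pt q.2 ∈ cube (pt q.1) (2 * R)).card : ℤ) ≤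
      4 * N ^ 5 * (4 * R + 1) ^ 3 := by
  have h1 : (((Idx N) ×ˢ (Idx N)).filter fun q => pt q.2 ∈ cube (pt q.1) (2 * R)).card ≤
      ((Idx N) ×ˢ (Finset.range (2 * N) ×ˢ cube (0, 0, 0) (2 * R))).card := by
    refine Finset.card_le_card_of_injOn
      (fun q => (q.1, (q.2.2, ((pt q.2).1 - (pt q.1).1, (pt q.2).2.1 - (pt q.1).2.1,
        (pt q.2).2.2 - (pt q.1).2.2)))) ?_ ?_
    · rintro ⟨⟨⟨a, b, c⟩, i⟩, ⟨⟨a', b', c'⟩, i'⟩⟩ hq
      simp only [Finset.coe_filter, Set.mem_ofPred_eq, Finset.mem_product, Idx, cube, pt,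
        Finset.mem_Icc, Finset.mem_range, Finset.mem_Ico, Finset.coe_product,
        Set.mem_prod, Finset.mem_coe] at hq ⊢
      refine ⟨hq.1.1, hq.1.2.2, ?_, ?_, ?_⟩ <;> constructor <;> omega
    · rintro ⟨⟨⟨a, b, c⟩, i⟩, ⟨⟨a', b', c'⟩, i'⟩⟩ _ ⟨⟨⟨x, y, z⟩, j⟩, ⟨⟨x', y', z'⟩, j'⟩⟩ _ h
      simp only [Prod.mk.injEq, pt] at h
      obtain ⟨⟨⟨h1, h2, h3⟩, h4⟩, h5, h6, h7, h8⟩ := h
      subst h1 h2 h3 h4 h5
      simp only [Prod.mk.injEq, and_true, true_and]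
      refine ⟨?_, ?_, ?_⟩ <;> omega
  have h2 : ((Idx N) ×ˢ (Finset.range (2 * N) ×ˢ cube (0, 0, 0) (2 * R))).card =
      (N * (N * N) * (2 * N)) * ((2 * N) * ((4 * R + 1).toNat * ((4 * R + 1).toNat *
        (4 * R + 1).toNat))) := by
    simp only [Idx, cube, Finset.card_product, Int.card_Ico, Int.card_Icc, Finset.card_range,
      sub_zero, Int.toNat_natCast]
    rw [show (0 : ℤ) + 2 * R + 1 - (0 - 2 * R) = 4 * R + 1 by ring]
  have h3 : ((4 * R + 1).toNat : ℤ) = 4 * R + 1 := Int.toNat_of_nonneg (by linarith)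
  rw [h2] at h1
  have h4 : ((((Idx N) ×ˢ (Idx N)).filter fun q => pt q.2 ∈ cube (pt q.1) (2 * R)).card : ℤ) ≤
      (((N * (N * N) * (2 * N)) * ((2 * N) * ((4 * R + 1).toNat * ((4 * R + 1).toNat *
        (4 * R + 1).toNat))) : ℕ) : ℤ) := by exact_mod_cast h1
  refine h4.trans (le_of_eq ?_)
  push_cast [h3]
  ring

end Pool.Agent.Helper94.Tri
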