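import Pool.Agent.Helper94.Tri.Defs

/-!
TR-11. Norm facts and the crossing lemma.
-/

set_option linter.dupNamespace false

namespace Pool.Agent.Helper94.Tri

theorem rho_neg (x : V) : rho (-x) = rho x := by
  obtain ⟨x1, x2, x3⟩ := x
  simp only [rho, Prod.neg_mk]
  have h1 : |- -x1 + -x2 + -x3| = |-x1 + x2 + x3| := by
    rw [← abs_neg]; congr 1; ring
  have h2 : |-x1 - -x2 + -x3| = |x1 - x2 + x3| := by
    rw [← abs_neg]; congr 1; ring
  have h3 : |-x1 + -x2 - -x3| = |x1 + x2 - x3| := by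
    rw [← abs_neg]; congr 1; ring
  rw [h1, h2, h3]

theorem rho_add_le (x y : V) : rho (x + y) ≤ rho x + rho y := by
  obtain ⟨x1, x2, x3⟩ := x
  obtain ⟨y1, y2, y3⟩ := y
  simp only [rho, Prod.mk_add_mk]
  refine max_le ?_ (max_le ?_ ?_)
  · have h : -(x1 + y1) + (x2 + y2) + (x3 + y3) = (-x1 + x2 + x3) + (-y1 + y2 + y3) := by ring
    rw [h]
    exact (abs_add_le _ _).trans (add_le_add (le_max_left _ _) (le_max_left _ _))
  · have h : x1 + y1 - (x2 + y2) + (x3 + y3) = (x1 - x2 + x3) + (y1 - y2 + y3) := by ring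
    rw [h]
    exact (abs_add_le _ _).trans (add_le_add ((le_max_left _ _).trans (le_max_right _ _))
      ((le_max_left _ _).trans (le_max_right _ _)))
  · have h : x1 + y1 + (x2 + y2) - (x3 + y3) = (x1 + x2 - x3) + (y1 + y2 - y3) := by ring
    rw [h]
    exact (abs_add_le _ _).trans (add_le_add ((le_max_right _ _).trans (le_max_right _ _))
      ((le_max_right _ _).trans (le_max_right _ _)))

private theorem cr_rho_bit {v : V} (h : Bit v) : rho v ≤ 2 := by
  obtain ⟨v1, v2, v3⟩ := v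
  obtain ⟨h1, h2, h3⟩ := h
  simp only at h1 h2 h3
  simp only [rho]
  refine max_le ?_ (max_le ?_ ?_) <;> rw [abs_le] <;> constructor <;> omega

private theorem cr_rho_zero : rho (0 : V) ≤ 2 := by
  simp [rho]

private theorem cr_rho_bit' {p q : V} (h : Bit (q - p)) : rho (p - q) ≤ 2 := by
  have := cr_rho_bit h
  rw [← rho_neg, neg_sub] at this
  exact this

theorem rho_le_two_of_tet {p q r s : V} (h : Tet p q r s) {x y : V}
    (hx : x = p ∨ x = q ∨ x = r ∨ x = s) (hy : y = p ∨ y = q ∨ y = r ∨ y = s) :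
    rho (x - y) ≤ 2 := by
  obtain ⟨h1, h2, h3, h4, h5, h6⟩ := h
  rcases hx with rfl | rfl | rfl | rfl <;> rcases hy with rfl | rfl | rfl | rfl <;>
    first
    | (rw [sub_self]; exact cr_rho_zero)
    | exact cr_rho_bit h1.1
    | exact cr_rho_bit h2.1
    | exact cr_rho_bit h3.1
    | exact cr_rho_bit h4.1
    | exact cr_rho_bit h5.1
    | exact cr_rho_bit h6.1
    | exact cr_rho_bit' h1.1
    | exact cr_rho_bit' h2.1
    | exact cr_rho_bit' h3.1
    | exact cr_rho_bit' h4.1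
    | exact cr_rho_bit' h5.1
    | exact cr_rho_bit' h6.1

theorem conn_symm {c : Col} {a b : T3} (h : Conn c a b) : Conn c b a := by
  unfold Conn at h ⊢
  induction h with
  | refl => exact Relation.ReflTransGen.refl
  | @tail b b' _ hbb ih =>
    obtain ⟨ha, hb, p, q, r, s, ht, h1, h2⟩ := hbb
    exact Relation.ReflTransGen.head ⟨hb, ha, p, q, r, s, ht, h2, h1⟩ ih

/-- `v` is a vertex of `t`. -/
private def crVx (t : T3) (v : V) : Prop := v = t.1 ∨ v = t.2.1 ∨ v = t.2.2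

private theorem cr_face {t : T3} {p q r s v : V} (hf : IsFace t p q r s) (hv : crVx t v) :
    v = p ∨ v = q ∨ v = r ∨ v = s := by
  unfold crVx at hv
  rcases hf with rfl | rfl | rfl | rfl <;> simp only at hv <;> tauto

private theorem cr_nb {t t' : T3} (h : Nb t t') {v w : V} (hv : crVx t v) (hw : crVx t' w) :
    rho (v - w) ≤ 2 := by
  obtain ⟨p, q, r, s, ht, h1, h2⟩ := h
  exact rho_le_two_of_tet ht (cr_face h1 hv) (cr_face h2 hw)

private theorem cr_tri {t : T3} (h : Tri t) {v w : V} (hv : crVx t v) (hw : crVx t w) :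
    rho (v - w) ≤ 2 := by
  obtain ⟨h1, h2, h3⟩ := h
  rcases hv with rfl | rfl | rfl <;> rcases hw with rfl | rfl | rfl <;>
    first
    | (rw [sub_self]; exact cr_rho_zero)
    | exact cr_rho_bit h1.1
    | exact cr_rho_bit h2.1
    | exact cr_rho_bit h3.1
    | exact cr_rho_bit' h1.1
    | exact cr_rho_bit' h2.1
    | exact cr_rho_bit' h3.1

private theorem cr_touch {S : V → Prop} {t t' : T3} (h : Nb t t') {v : V} (hv : crVx t' v)
    (hS : S v) : Touch S t := by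
  obtain ⟨p, q, r, s, ht, h1, h2⟩ := h
  refine ⟨p, q, r, s, ht, h1, ?_⟩
  rcases cr_face h2 hv with rfl | rfl | rfl | rfl
  · exact Or.inl hS
  · exact Or.inr (Or.inl hS)
  · exact Or.inr (Or.inr (Or.inl hS))
  · exact Or.inr (Or.inr (Or.inr hS))

private theorem cr_nb_symm {t t' : T3} (h : Nb t t') : Nb t' t := by
  obtain ⟨p, q, r, s, ht, h1, h2⟩ := h
  exact ⟨p, q, r, s, ht, h2, h1⟩

private theorem cr_far {y v w : V} {n : ℤ} (hn : 1 ≤ n) (hvw : rho (w - v) ≤ 2)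
    (hv : rho (v - y) ≤ n) (hw : 3 * n < rho (w - y)) : False := by
  have h := rho_add_le (w - v) (v - y)
  rw [sub_add_sub_cancel] at h
  omega

theorem cross_of_conn {c : Col} {y : V} {n : ℤ} (hn : 1 ≤ n) {a b : T3} (ha : Tc c a)
    (hab : Conn c a b)
    (ha' : rho (a.1 - y) ≤ n ∨ rho (a.2.1 - y) ≤ n ∨ rho (a.2.2 - y) ≤ n)
    (hb' : 3 * n < rho (b.1 - y) ∨ 3 * n < rho (b.2.1 - y) ∨ 3 * n < rho (b.2.2 - y)) :
    Cross c y n := by
  -- vertices
  have hin : ∃ v, crVx a v ∧ rho (v - y) ≤ n := by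
    rcases ha' with h | h | h
    · exact ⟨_, Or.inl rfl, h⟩
    · exact ⟨_, Or.inr (Or.inl rfl), h⟩
    · exact ⟨_, Or.inr (Or.inr rfl), h⟩
  have hout : ∃ v, crVx b v ∧ 3 * n < rho (v - y) := by
    rcases hb' with h | h | h
    · exact ⟨_, Or.inl rfl, h⟩
    · exact ⟨_, Or.inr (Or.inl rfl), h⟩
    · exact ⟨_, Or.inr (Or.inr rfl), h⟩
  -- the alternative
  have htri : ∀ t : T3, (∃ v, crVx t v ∧ rho (v - y) ≤ n) ∨
      (∃ v, crVx t v ∧ 3 * n < rho (v - y)) ∨ VIn (Ann y n) t := by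
    intro t
    by_cases h1 : ∃ v, crVx t v ∧ rho (v - y) ≤ n
    · exact Or.inl h1
    · by_cases h2 : ∃ v, crVx t v ∧ 3 * n < rho (v - y)
      · exact Or.inr (Or.inl h2)
      · right; right
        push Not at h1 h2
        exact ⟨⟨h1 _ (Or.inl rfl), h2 _ (Or.inl rfl)⟩,
          ⟨h1 _ (Or.inr (Or.inl rfl)), h2 _ (Or.inr (Or.inl rfl))⟩,
          ⟨h1 _ (Or.inr (Or.inr rfl)), h2 _ (Or.inr (Or.inr rfl))⟩⟩
  have key : Tc c b ∧ (Cross c y n ∨ (∃ v, crVx b v ∧ rho (v - y) ≤ n) ∨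
      (VIn (Ann y n) b ∧ ∃ a', Tc c a' ∧ VIn (Ann y n) a' ∧
        Touch (fun x => rho (x - y) ≤ n) a' ∧
        Relation.ReflTransGen
          (fun a b => Tc c a ∧ Tc c b ∧ VIn (Ann y n) a ∧ VIn (Ann y n) b ∧ Nb a b) a' b)) := by
    clear hb' hout
    induction hab with
    | refl => exact ⟨ha, Or.inr (Or.inl hin)⟩
    | @tail b b' hab hbb ih =>
      obtain ⟨hTb, hTb', hNb⟩ := hbb
      refine ⟨hTb', ?_⟩
      rcases ih.2 with h | ⟨v, hv, hvn⟩ | ⟨hbA, a', ha1, ha2, ha3, ha4⟩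
      · exact Or.inl h
      · rcases htri b' with h | ⟨w, hw, hwn⟩ | h
        · exact Or.inr (Or.inl h)
        · exact absurd (cr_far hn (cr_nb (cr_nb_symm hNb) hw hv) hvn hwn) id
        · exact Or.inr (Or.inr ⟨h, b', hTb', h,
            cr_touch (cr_nb_symm hNb) hv hvn, Relation.ReflTransGen.refl⟩)
      · rcases htri b' with h | ⟨w, hw, hwn⟩ | h
        · exact Or.inr (Or.inl h)
        · exact Or.inl ⟨a', b, ha1, ha2, ha3, cr_touch hNb hw hwn, ha4⟩
        · exact Or.inr (Or.inr ⟨h, a', ha1, ha2, ha3,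
            ha4.tail ⟨hTb, hTb', hbA, h, hNb⟩⟩)
  obtain ⟨hTb, h | ⟨v, hv, hvn⟩ | ⟨hbA, -⟩⟩ := key
  · exact h
  · obtain ⟨w, hw, hwn⟩ := hout
    exact absurd (cr_far hn (cr_tri hTb.1 hw hv) hvn hwn) id
  · obtain ⟨w, hw, hwn⟩ := hout
    rcases hw with rfl | rfl | rfl
    · exact absurd hbA.1.2 (not_le.mpr hwn)
    · exact absurd hbA.2.1.2 (not_le.mpr hwn)
    · exact absurd hbA.2.2.2 (not_le.mpr hwn)

end Pool.Agent.Helper94.Tri
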