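import Pool.Agent.Helper94.Tri.Defs

/-!
TR-2. Second part of the filling lemma. Notation: `x = (x1, x2, x3)`, `a = (a1, a2, a3)`,
`P13 (x1, x2) = ∑ s ∈ Ico a3 (a3+L+1), w13 (x1, x2, s)` (the full column sum, all the support),
`P23` the same for `w23`, and `G (x1, x2) = ∑ u ∈ Ico a1 x1, P13 (u, x2)`. So
`fill3 w13 a L x = if x3 = a3+L then G (x1, x2) else 0`.

Step 1 (column identity): `P23 (x1+1,x2) - P23 (x1,x2) = P13 (x1,x2+1) - P13 (x1,x2)` for all
`x1, x2`: sum the last clause of `Flux` over `s ∈ Ico (a3-1) (a3+L+1)`; the `w12` part telescopes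
to `w12 (x1,x2,a3+L+1) - w12 (x1,x2,a3-1) = 0` (support); the term `s = a3-1` of `w13, w23`
vanishes. (If `L < 0` everything is zero by the support hypotheses: no point is in the box; it is
convenient to treat `L < 0` first: all `w` vanish identically.)

Step 2: `G (x1+1,x2) - G (x1,x2) = P13 (x1,x2)` for all `x1, x2`: clear for `a1 ≤ x1`
(`Finset.sum_Ico_succ_top` in `ℤ`, e.g. via `Int.Ico_succ_right`/`Finset.insert`), and for
`x1 < a1` both sides vanish (support). `G (x1,x2+1) - G (x1,x2) = P23 (x1,x2)`: sum Step 1 over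
`u ∈ Ico a1 x1`, it telescopes to `P23 (x1,x2) - P23 (a1,x2)`, and `P23 (a1,x2) = 0` by Step 1 at
`(a1-1, x2)` (three other terms vanish by support). For `x1 < a1` both sides vanish.

`fill_curl13`: cases `x3 > a3+L` (all zero; note that `x3+1` also is), `x3 = a3+L` (then
`fill1 (x+e3) = 0`, `fill1 x = -∑ s ∈ Ico a3 (a3+L), w13 = -(P13 - w13 x)`, `fill3` difference
`= P13`), `x3 < a3+L` (`fill3` terms are `0`; `fill1 x - fill1 (x+e3)` is `w13 (x1,x2,x3)` if
`a3 ≤ x3` and `0 = w13 x` otherwise). `fill_curl23` the same with `G (x1,x2+1) - G (x1,x2) = P23`.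

`fill3_supp`: `x3 = a3+L` and `G (x1,x2) ≠ 0` gives some `u` with `a1 ≤ u < x1` and `w13 (u,x2,s) ≠
0`, so `a1 ≤ x1` and `x2` in range; if `x1 > a1+L` then `G (x1,x2) = G (x1,x2')` for every `x2'`
(Step 2: `P23 (x1,·) = 0` by support), and `G (x1,x2') = 0` for `x2' > a2+L`. Hence `x1 ≤ a1+L`.
-/

set_option linter.dupNamespace false

namespace Pool.Agent.Helper94.Tri

private theorem f3_succ (f : ℤ → ℤ) {a b : ℤ} (h : a ≤ b) :
    ∑ s ∈ Finset.Ico a (b + 1), f s = ∑ s ∈ Finset.Ico a b, f s + f b := by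
  rw [← Finset.insert_Ico_right_eq_Ico_add_one h, Finset.sum_insert (by simp), add_comm]

private theorem f3_tele (f : ℤ → ℤ) {a b : ℤ} (h : a ≤ b) :
    ∑ s ∈ Finset.Ico a b, (f (s + 1) - f s) = f b - f a := by
  induction b, h using Int.leInduction with
  | base => simp
  | succ b hb ih =>
    rw [f3_succ _ hb, ih]
    ring

private theorem f3_zero {w : V → ℤ} {a : V} {L : ℤ} (h : ∀ x, w x ≠ 0 → InBox a L x) {x : V}
    (hx : ¬ InBox a L x) : w x = 0 := by
  by_contra hne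
  exact hx (h x hne)

/-- the column sum -/
private noncomputable def f3P (w : V → ℤ) (a3 L x1 x2 : ℤ) : ℤ := ∑ s ∈ Finset.Ico a3 (a3 + L + 1), w (x1, x2, s)

/-- the sum of column sums -/
private noncomputable def f3G (w : V → ℤ) (a1 a3 L x1 x2 : ℤ) : ℤ := ∑ u ∈ Finset.Ico a1 x1, f3P w a3 L u x2

private theorem f3P_zero {w : V → ℤ} {a1 a2 a3 L : ℤ} (h : ∀ x, w x ≠ 0 → InBox (a1, a2, a3) L x)
    {x1 x2 : ℤ} (hx : ¬ ((a1 ≤ x1 ∧ x1 ≤ a1 + L) ∧ (a2 ≤ x2 ∧ x2 ≤ a2 + L))) :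
    f3P w a3 L x1 x2 = 0 := by
  unfold f3P
  refine Finset.sum_eq_zero (fun s _ => f3_zero h ?_)
  rintro ⟨h1, h2, _⟩
  exact hx ⟨h1, h2⟩

section

variable {w12 w13 w23 : V → ℤ} {a1 a2 a3 L : ℤ}

private theorem f3_F (h : Flux w12 w13 w23 (a1, a2, a3) L) (x1 x2 s : ℤ) :
    w12 (x1, x2, s + 1) - w12 (x1, x2, s) =
      (w13 (x1, x2 + 1, s) - w13 (x1, x2, s)) - (w23 (x1 + 1, x2, s) - w23 (x1, x2, s)) := by
  have := h.2.2.2 (x1, x2, s)
  simp only [e1, e2, e3, Prod.mk_add_mk, add_zero] at this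
  linarith

private theorem f3_step1 (hL : 0 ≤ L) (h : Flux w12 w13 w23 (a1, a2, a3) L) (x1 x2 : ℤ) :
    f3P w23 a3 L (x1 + 1) x2 - f3P w23 a3 L x1 x2
      = f3P w13 a3 L x1 (x2 + 1) - f3P w13 a3 L x1 x2 := by
  have hz : w12 (x1, x2, a3) = 0 := by
    have h1 := f3_F h x1 x2 (a3 - 1)
    have n1 : ∀ y1 y2 : ℤ, ¬ InBox (a1, a2, a3) L (y1, y2, a3 - 1) := by
      rintro y1 y2 ⟨_, _, h4, _⟩
      simp only at h4
      linarith
    rw [f3_zero h.1 (n1 _ _), f3_zero h.2.1 (n1 _ _), f3_zero h.2.1 (n1 _ _),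
      f3_zero h.2.2.1 (n1 _ _), f3_zero h.2.2.1 (n1 _ _)] at h1
    rw [sub_add_cancel] at h1
    linarith
  have hz' : w12 (x1, x2, a3 + L + 1) = 0 := by
    refine f3_zero h.1 ?_
    rintro ⟨_, _, _, h4⟩
    simp only at h4
    linarith
  have h1 := f3_tele (fun s => w12 (x1, x2, s)) (a := a3) (b := a3 + L + 1) (by linarith)
  simp only [f3_F h, hz, hz', Finset.sum_sub_distrib] at h1
  unfold f3P
  linarith

private theorem f3_G1 (h : Flux w12 w13 w23 (a1, a2, a3) L) (x1 x2 : ℤ) :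
    f3G w13 a1 a3 L (x1 + 1) x2 - f3G w13 a1 a3 L x1 x2 = f3P w13 a3 L x1 x2 := by
  unfold f3G
  rcases le_or_gt a1 x1 with h1 | h1
  · rw [f3_succ _ h1]
    ring
  · rw [Finset.Ico_eq_empty (by omega), Finset.Ico_eq_empty (by omega), f3P_zero h.2.1]
    · simp
    · rintro ⟨⟨h2, _⟩, _⟩
      linarith

private theorem f3_G2 (hL : 0 ≤ L) (h : Flux w12 w13 w23 (a1, a2, a3) L) (x1 x2 : ℤ) :
    f3G w13 a1 a3 L x1 (x2 + 1) - f3G w13 a1 a3 L x1 x2 = f3P w23 a3 L x1 x2 := by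
  unfold f3G
  rcases le_or_gt a1 x1 with h1 | h1
  · rw [← Finset.sum_sub_distrib]
    simp only [← f3_step1 hL h]
    rw [f3_tele (fun u => f3P w23 a3 L u x2) h1]
    have hz : f3P w23 a3 L a1 x2 = 0 := by
      have h2 := f3_step1 hL h (a1 - 1) x2
      have n1 : ∀ y2 : ℤ, ¬ ((a1 ≤ a1 - 1 ∧ a1 - 1 ≤ a1 + L) ∧ (a2 ≤ y2 ∧ y2 ≤ a2 + L)) := by
        rintro y2 ⟨⟨h3, _⟩, _⟩
        linarith
      rw [f3P_zero h.2.1 (n1 _), f3P_zero h.2.1 (n1 _), f3P_zero h.2.2.1 (n1 _)] at h2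
      rw [sub_add_cancel] at h2
      linarith
    simp only [hz, sub_zero]
  · rw [Finset.Ico_eq_empty (by omega), f3P_zero h.2.2.1]
    · simp
    · rintro ⟨⟨h2, _⟩, _⟩
      linarith

private theorem f3_fill3 (w : V → ℤ) (x1 x2 x3 : ℤ) :
    fill3 w (a1, a2, a3) L (x1, x2, x3)
      = if x3 = a3 + L then f3G w a1 a3 L x1 x2 else 0 := rfl

private theorem f3_neg (hL : L < 0) {w : V → ℤ} (h : ∀ x, w x ≠ 0 → InBox (a1, a2, a3) L x)
    (x : V) : w x = 0 := by
  refine f3_zero h ?_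
  rintro ⟨⟨h1, h2⟩, _⟩
  linarith

private theorem f3_curl {w : V → ℤ} (hw : ∀ x, w x ≠ 0 → InBox (a1, a2, a3) L x) (hL : 0 ≤ L)
    {A B : ℤ} (x1 x2 x3 : ℤ) (hAB : A - B = f3P w a3 L x1 x2) :
    (if x3 = a3 + L then A else 0) - (if x3 = a3 + L then B else 0) -
      ((if x3 + 1 ≤ a3 + L then -∑ s ∈ Finset.Ico a3 (x3 + 1), w (x1, x2, s) else 0) -
      (if x3 ≤ a3 + L then -∑ s ∈ Finset.Ico a3 x3, w (x1, x2, s) else 0)) = w (x1, x2, x3) := by
  rcases lt_trichotomy x3 (a3 + L) with h3 | h3 | h3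
  · rw [if_neg h3.ne, if_neg h3.ne, if_pos (by linarith), if_pos h3.le]
    rcases le_or_gt a3 x3 with h4 | h4
    · rw [f3_succ _ h4]
      ring
    · rw [Finset.Ico_eq_empty (by omega), Finset.Ico_eq_empty (by omega)]
      have : w (x1, x2, x3) = 0 := by
        refine f3_zero hw ?_
        rintro ⟨_, _, h5, _⟩
        simp only at h5
        linarith
      rw [this]
      simp
  · rw [if_pos h3, if_pos h3, if_neg (by linarith), if_pos h3.le, hAB]
    unfold f3P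
    rw [f3_succ _ (by linarith), h3]
    ring
  · rw [if_neg h3.ne', if_neg h3.ne', if_neg (by linarith), if_neg (by linarith)]
    have : w (x1, x2, x3) = 0 := by
      refine f3_zero hw ?_
      rintro ⟨_, _, _, h5⟩
      simp only at h5
      linarith
    rw [this]
    simp

end

theorem fill_curl13 {w12 w13 w23 : V → ℤ} {a : V} {L : ℤ} (h : Flux w12 w13 w23 a L) (x : V) :
    fill3 w13 a L (x + e1) - fill3 w13 a L x - (fill1 w13 a L (x + e3) - fill1 w13 a L x)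
      = w13 x := by
  obtain ⟨x1, x2, x3⟩ := x
  obtain ⟨a1, a2, a3⟩ := a
  rcases lt_or_ge L 0 with hL | hL
  · have h0 := f3_neg hL h.2.1
    simp [fill3, fill1, h0]
  · simp only [e1, e3, Prod.mk_add_mk, add_zero, f3_fill3, fill1]
    exact f3_curl h.2.1 hL x1 x2 x3 (f3_G1 h x1 x2)

theorem fill_curl23 {w12 w13 w23 : V → ℤ} {a : V} {L : ℤ} (h : Flux w12 w13 w23 a L) (x : V) :
    fill3 w13 a L (x + e2) - fill3 w13 a L x - (fill2 w23 a L (x + e3) - fill2 w23 a L x)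
      = w23 x := by
  obtain ⟨x1, x2, x3⟩ := x
  obtain ⟨a1, a2, a3⟩ := a
  rcases lt_or_ge L 0 with hL | hL
  · have h0 := f3_neg hL h.2.1
    have h1 := f3_neg hL h.2.2.1
    simp [fill3, fill2, h0, h1]
  · simp only [e2, e3, Prod.mk_add_mk, add_zero, f3_fill3, fill2]
    exact f3_curl h.2.2.1 hL x1 x2 x3 (f3_G2 hL h x1 x2)

theorem fill3_supp {w12 w13 w23 : V → ℤ} {a : V} {L : ℤ} (h : Flux w12 w13 w23 a L) {x : V}
    (hx : fill3 w13 a L x ≠ 0) : InBox a L x := by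
  obtain ⟨x1, x2, x3⟩ := x
  obtain ⟨a1, a2, a3⟩ := a
  rcases lt_or_ge L 0 with hL | hL
  · exfalso
    apply hx
    have h0 := f3_neg hL h.2.1
    simp [fill3, h0]
  · rw [f3_fill3] at hx
    by_cases h3 : x3 = a3 + L
    · rw [if_pos h3] at hx
      have hG := hx
      unfold f3G at hG
      obtain ⟨u, hu, hne⟩ := Finset.exists_ne_zero_of_sum_ne_zero hG
      rw [Finset.mem_Ico] at hu
      have hb : (a1 ≤ u ∧ u ≤ a1 + L) ∧ (a2 ≤ x2 ∧ x2 ≤ a2 + L) := by
        by_contra hc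
        exact hne (f3P_zero h.2.1 hc)
      have hx1 : x1 ≤ a1 + L := by
        by_contra hc
        push Not at hc
        apply hx
        -- independence of the second coordinate
        have hind : ∀ n : ℕ, f3G w13 a1 a3 L x1 (x2 + n) = f3G w13 a1 a3 L x1 x2 := by
          intro n
          induction n with
          | zero => simp
          | succ n ih =>
            have h5 := f3_G2 hL h x1 (x2 + n)
            rw [f3P_zero h.2.2.1 (by rintro ⟨⟨_, h6⟩, _⟩; linarith)] at h5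
            push_cast
            rw [← add_assoc]
            linarith
        rw [← hind (a2 + L + 1 - x2).toNat]
        have e : x2 + ((a2 + L + 1 - x2).toNat : ℤ) = a2 + L + 1 := by omega
        rw [e]
        unfold f3G
        refine Finset.sum_eq_zero (fun v _ => f3P_zero h.2.1 ?_)
        rintro ⟨_, _, h6⟩
        linarith
      refine ⟨⟨?_, hx1⟩, hb.2, ?_, ?_⟩
      · show a1 ≤ x1
        linarith [hu.1, hu.2]
      · show a3 ≤ x3
        linarith
      · show x3 ≤ a3 + L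
        linarith
    · rw [if_neg h3] at hx
      exact absurd rfl hx

end Pool.Agent.Helper94.Tri
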