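import Pool.Agent.Helper94.Tri.Fill12
import Pool.Agent.Helper94.Tri.Fill3
import Pool.Agent.Helper94.Tri.Om
import Pool.Agent.Helper94.Tri.FluxComp
import Pool.Agent.Helper94.Tri.Comps

/-!
TR-6. The corrected differences are curl free where all components are small.
-/

set_option linter.dupNamespace false
set_option linter.unusedVariables false

namespace Pool.Agent.Helper94.Tri

private theorem cu_sum_omC {c : Col} {r : ℤ} (hr : 0 ≤ r) {x : V} (h : SmallAt c r x)
    {S : Finset (Finset T3)} (hS : ∀ C ∈ S, IsComp c r C) (hsub : comps c r x ⊆ S) {q s : V}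
    (hT : Tri (x, q, s)) : ∑ C ∈ S, omC c C x q s = om c x q s := by
  by_cases h0 : om c x q s = 0
  · rw [h0]
    refine Finset.sum_eq_zero fun C _ => ?_
    unfold omC
    split_ifs
    · exact h0
    · rfl
  · obtain ⟨n1, n2, n3⟩ := om_ne c x q s h0
    obtain ⟨C1, hC1, hm⟩ := h (x, q, s) ⟨hT, n1, n2, n3⟩ rfl
    have hin : C1 ∈ comps c r x := by
      refine mem_comps_of_near hr hC1 hm ?_
      rw [mem_cube]
      simp only [sub_self, abs_zero]
      exact ⟨hr, hr, hr⟩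
    rw [Finset.sum_eq_single C1]
    · unfold omC
      rw [if_pos hm]
    · intro C hC hne
      unfold omC
      rw [if_neg]
      intro hm'
      exact hne (comp_unique (hS C hC) hC1 hm' hm)
    · intro hn
      exact absurd (hsub hin) hn

private theorem cu_bet1 {c : Col} {r : ℤ} (hr : 0 ≤ r) {y : V} {S : Finset (Finset T3)}
    (hS : ∀ C ∈ S, IsComp c r C) (hsub : comps c r y ⊆ S) :
    bet1 c r y = ∑ C ∈ S, fill1 (W13 c C) (corner r C) (2 * r) y := by
  unfold bet1
  refine Finset.sum_subset hsub fun C hC hn => ?_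
  by_contra h0
  exact hn (mem_comps_of_inBox hr (hS C hC) (fill1_supp (flux_of_comp (hS C hC)) h0))

private theorem cu_bet2 {c : Col} {r : ℤ} (hr : 0 ≤ r) {y : V} {S : Finset (Finset T3)}
    (hS : ∀ C ∈ S, IsComp c r C) (hsub : comps c r y ⊆ S) :
    bet2 c r y = ∑ C ∈ S, fill2 (W23 c C) (corner r C) (2 * r) y := by
  unfold bet2
  refine Finset.sum_subset hsub fun C hC hn => ?_
  by_contra h0
  exact hn (mem_comps_of_inBox hr (hS C hC) (fill2_supp (flux_of_comp (hS C hC)) h0))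

private theorem cu_bet3 {c : Col} {r : ℤ} (hr : 0 ≤ r) {y : V} {S : Finset (Finset T3)}
    (hS : ∀ C ∈ S, IsComp c r C) (hsub : comps c r y ⊆ S) :
    bet3 c r y = ∑ C ∈ S, fill3 (W13 c C) (corner r C) (2 * r) y := by
  unfold bet3
  refine Finset.sum_subset hsub fun C hC hn => ?_
  by_contra h0
  exact hn (mem_comps_of_inBox hr (hS C hC) (fill3_supp (flux_of_comp (hS C hC)) h0))

private theorem cu_tri {x u v : V} (hu : Bit u) (hu0 : u ≠ 0) (hv : Bit v) (hv0 : v ≠ 0)
    (huv : Bit (u + v)) (huv0 : u + v ≠ 0) : Tri (x, x + u, x + u + v) := by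
  refine ⟨⟨?_, ?_⟩, ⟨?_, ?_⟩, ⟨?_, ?_⟩⟩
  · show Bit (x + u - x)
    rwa [add_sub_cancel_left]
  · show x ≠ x + u
    intro h
    exact hu0 (left_eq_add.1 h)
  · show Bit (x + u + v - (x + u))
    rwa [add_sub_cancel_left]
  · show x + u ≠ x + u + v
    intro h
    exact hv0 (left_eq_add.1 h)
  · show Bit (x + u + v - x)
    rwa [add_assoc, add_sub_cancel_left]
  · show x ≠ x + u + v
    rw [add_assoc]
    intro h
    exact huv0 (left_eq_add.1 h)

private theorem cu_tri' {x u v : V} (hu : Bit u) (hu0 : u ≠ 0) (hv : Bit v) (hv0 : v ≠ 0)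
    (huv : Bit (u + v)) (huv0 : u + v ≠ 0) : Tri (x, x + v, x + u + v) := by
  have h := cu_tri (x := x) hv hv0 hu hu0 (by rwa [add_comm]) (by rwa [add_comm])
  rwa [add_right_comm] at h

private theorem cu_e : Bit e1 ∧ e1 ≠ 0 ∧ Bit e2 ∧ e2 ≠ 0 ∧ Bit e3 ∧ e3 ≠ 0 ∧
    Bit (e1 + e2) ∧ e1 + e2 ≠ 0 ∧ Bit (e1 + e3) ∧ e1 + e3 ≠ 0 ∧ Bit (e2 + e3) ∧ e2 + e3 ≠ 0 := by
  unfold Bit e1 e2 e3
  refine ⟨?_, ?_, ?_, ?_, ?_, ?_, ?_, ?_, ?_, ?_, ?_, ?_⟩ <;> simp [Prod.ext_iff]

private theorem cu_main {c : Col} {x u v : V} (b1 b2 b1' b2' : ℤ)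
    (hb : b2' - b2 - (b1' - b1) = om c x (x + u) (x + u + v) - om c x (x + v) (x + u + v)) :
    (del c (x + u) (x + u + v) - 3 * b2') - (del c x (x + v) - 3 * b2) -
      ((del c (x + v) (x + v + u) - 3 * b1') - (del c x (x + u) - 3 * b1)) = 0 := by
  have h1 := three_om c x (x + u) (x + u + v)
  have h2 := three_om c x (x + v) (x + u + v)
  have h3 : x + v + u = x + u + v := add_right_comm _ _ _
  rw [h3]
  linarith

theorem curlD12 {c : Col} {r : ℤ} (hr : 0 ≤ r) {x : V} (h : SmallAt c r x) :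
    D2 c r (x + e1) - D2 c r x - (D1 c r (x + e2) - D1 c r x) = 0 := by
  classical
  obtain ⟨a1, b1, a2, b2, a3, b3, a12, b12, a13, b13, a23, b23⟩ := cu_e
  set S := comps c r x ∪ comps c r (x + e1) ∪ comps c r (x + e2) with hSdef
  have hS : ∀ C ∈ S, IsComp c r C := by
    intro C hC
    rw [hSdef, Finset.mem_union, Finset.mem_union] at hC
    rcases hC with (hC | hC) | hC <;> exact isComp_of_mem_comps hC
  have s0 : comps c r x ⊆ S := fun C hC => by
    rw [hSdef, Finset.mem_union, Finset.mem_union]; exact Or.inl (Or.inl hC)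
  have s1 : comps c r (x + e1) ⊆ S := fun C hC => by
    rw [hSdef, Finset.mem_union, Finset.mem_union]; exact Or.inl (Or.inr hC)
  have s2 : comps c r (x + e2) ⊆ S := fun C hC => by
    rw [hSdef, Finset.mem_union, Finset.mem_union]; exact Or.inr hC
  refine cu_main _ _ _ _ ?_
  rw [cu_bet2 hr hS s1, cu_bet2 hr hS s0, cu_bet1 hr hS s2, cu_bet1 hr hS s0,
    ← Finset.sum_sub_distrib, ← Finset.sum_sub_distrib, ← Finset.sum_sub_distrib]
  rw [Finset.sum_congr rfl fun C hC => fill_curl12 (flux_of_comp (hS C hC)) x]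
  unfold W12
  rw [Finset.sum_sub_distrib, cu_sum_omC hr h hS s0 (cu_tri a1 b1 a2 b2 a12 b12),
    cu_sum_omC hr h hS s0 (cu_tri' a1 b1 a2 b2 a12 b12)]

theorem curlD13 {c : Col} {r : ℤ} (hr : 0 ≤ r) {x : V} (h : SmallAt c r x) :
    D3 c r (x + e1) - D3 c r x - (D1 c r (x + e3) - D1 c r x) = 0 := by
  classical
  obtain ⟨a1, b1, a2, b2, a3, b3, a12, b12, a13, b13, a23, b23⟩ := cu_e
  set S := comps c r x ∪ comps c r (x + e1) ∪ comps c r (x + e3) with hSdef
  have hS : ∀ C ∈ S, IsComp c r C := by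
    intro C hC
    rw [hSdef, Finset.mem_union, Finset.mem_union] at hC
    rcases hC with (hC | hC) | hC <;> exact isComp_of_mem_comps hC
  have s0 : comps c r x ⊆ S := fun C hC => by
    rw [hSdef, Finset.mem_union, Finset.mem_union]; exact Or.inl (Or.inl hC)
  have s1 : comps c r (x + e1) ⊆ S := fun C hC => by
    rw [hSdef, Finset.mem_union, Finset.mem_union]; exact Or.inl (Or.inr hC)
  have s2 : comps c r (x + e3) ⊆ S := fun C hC => by
    rw [hSdef, Finset.mem_union, Finset.mem_union]; exact Or.inr hC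
  refine cu_main _ _ _ _ ?_
  rw [cu_bet3 hr hS s1, cu_bet3 hr hS s0, cu_bet1 hr hS s2, cu_bet1 hr hS s0,
    ← Finset.sum_sub_distrib, ← Finset.sum_sub_distrib, ← Finset.sum_sub_distrib]
  rw [Finset.sum_congr rfl fun C hC => fill_curl13 (flux_of_comp (hS C hC)) x]
  unfold W13
  rw [Finset.sum_sub_distrib, cu_sum_omC hr h hS s0 (cu_tri a1 b1 a3 b3 a13 b13),
    cu_sum_omC hr h hS s0 (cu_tri' a1 b1 a3 b3 a13 b13)]

theorem curlD23 {c : Col} {r : ℤ} (hr : 0 ≤ r) {x : V} (h : SmallAt c r x) :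
    D3 c r (x + e2) - D3 c r x - (D2 c r (x + e3) - D2 c r x) = 0 := by
  classical
  obtain ⟨a1, b1, a2, b2, a3, b3, a12, b12, a13, b13, a23, b23⟩ := cu_e
  set S := comps c r x ∪ comps c r (x + e2) ∪ comps c r (x + e3) with hSdef
  have hS : ∀ C ∈ S, IsComp c r C := by
    intro C hC
    rw [hSdef, Finset.mem_union, Finset.mem_union] at hC
    rcases hC with (hC | hC) | hC <;> exact isComp_of_mem_comps hC
  have s0 : comps c r x ⊆ S := fun C hC => by
    rw [hSdef, Finset.mem_union, Finset.mem_union]; exact Or.inl (Or.inl hC)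
  have s1 : comps c r (x + e2) ⊆ S := fun C hC => by
    rw [hSdef, Finset.mem_union, Finset.mem_union]; exact Or.inl (Or.inr hC)
  have s2 : comps c r (x + e3) ⊆ S := fun C hC => by
    rw [hSdef, Finset.mem_union, Finset.mem_union]; exact Or.inr hC
  refine cu_main _ _ _ _ ?_
  rw [cu_bet3 hr hS s1, cu_bet3 hr hS s0, cu_bet2 hr hS s2, cu_bet2 hr hS s0,
    ← Finset.sum_sub_distrib, ← Finset.sum_sub_distrib, ← Finset.sum_sub_distrib]
  rw [Finset.sum_congr rfl fun C hC => fill_curl23 (flux_of_comp (hS C hC)) x]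
  unfold W23
  rw [Finset.sum_sub_distrib, cu_sum_omC hr h hS s0 (cu_tri a2 b2 a3 b3 a23 b23),
    cu_sum_omC hr h hS s0 (cu_tri' a2 b2 a3 b3 a23 b23)]

end Pool.Agent.Helper94.Tri
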