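import Mathlib

/-!
# Tricolor percolation: Kuhn coordinates, tricolor triangles, height corrections

The body centred cubic lattice is identified with `V = ℤ³` (Kuhn coordinates): the adjacent pairs
are the pairs `p, q` with `q - p` or `p - q` a nonzero 0/1 vector, the triangles are the chains
`p < q < r` and the tetrahedra are the chains `p < q < r < s`, all differences being 0/1 vectors.
-/

namespace Pool.Agent.Helper94.Tri

/-- Points of `ℤ³`. -/
abbrev V := ℤ × ℤ × ℤ

/-- Colourings with colours in `ZMod 3`. -/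
abbrev Col := V → ZMod 3

/-- Ordered triples of points (only chains, see `Tri`, are used as triangles). -/
abbrev T3 := V × V × V

def e1 : V := (1, 0, 0)
def e2 : V := (0, 1, 0)
def e3 : V := (0, 0, 1)

/-- All coordinates are 0 or 1. -/
def Bit (v : V) : Prop :=
  (v.1 = 0 ∨ v.1 = 1) ∧ (v.2.1 = 0 ∨ v.2.1 = 1) ∧ (v.2.2 = 0 ∨ v.2.2 = 1)

/-- `p < q` with `q - p` a 0/1 vector. -/
def Step (p q : V) : Prop := Bit (q - p) ∧ p ≠ q

/-- Triangles: chains of length three. -/
def Tri (t : T3) : Prop := Step t.1 t.2.1 ∧ Step t.2.1 t.2.2 ∧ Step t.1 t.2.2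

/-- Tetrahedra: chains of length four. -/
def Tet (p q r s : V) : Prop :=
  Step p q ∧ Step p r ∧ Step p s ∧ Step q r ∧ Step q s ∧ Step r s

/-- `t` is one of the four faces of the tetrahedron `p q r s`. -/
def IsFace (t : T3) (p q r s : V) : Prop :=
  t = (q, r, s) ∨ t = (p, r, s) ∨ t = (p, q, s) ∨ t = (p, q, r)

/-- `t` is a tricolor triangle of the colouring `c`. -/
def Tc (c : Col) (t : T3) : Prop :=
  Tri t ∧ c t.1 ≠ c t.2.1 ∧ c t.2.1 ≠ c t.2.2 ∧ c t.1 ≠ c t.2.2

/-- Two triangles which are faces of one tetrahedron. -/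
def Nb (a b : T3) : Prop := ∃ p q r s, Tet p q r s ∧ IsFace a p q r s ∧ IsFace b p q r s

/-- Connection by tricolor triangles. -/
def Conn (c : Col) : T3 → T3 → Prop :=
  Relation.ReflTransGen fun a b => Tc c a ∧ Tc c b ∧ Nb a b

/-- The sup norm of the corresponding point of the body centred cubic lattice. -/
def rho (x : V) : ℤ :=
  max |-x.1 + x.2.1 + x.2.2| (max |x.1 - x.2.1 + x.2.2| |x.1 + x.2.1 - x.2.2|)

/-- The annulus around `y` with inner radius `n` and outer radius `3 n`. -/
def Ann (y : V) (n : ℤ) (x : V) : Prop := n < rho (x - y) ∧ rho (x - y) ≤ 3 * n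

/-- All three vertices of `t` satisfy `A`. -/
def VIn (A : V → Prop) (t : T3) : Prop := A t.1 ∧ A t.2.1 ∧ A t.2.2

/-- Some tetrahedron with face `t` has a vertex in `S`. -/
def Touch (S : V → Prop) (t : T3) : Prop :=
  ∃ p q r s, Tet p q r s ∧ IsFace t p q r s ∧ (S p ∨ S q ∨ S r ∨ S s)

/-- A tricolor path crosses the annulus around `y`. -/
def Cross (c : Col) (y : V) (n : ℤ) : Prop :=
  ∃ a b, Tc c a ∧ VIn (Ann y n) a ∧ Touch (fun x => rho (x - y) ≤ n) a ∧
    Touch (fun x => 3 * n < rho (x - y)) b ∧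
    Relation.ReflTransGen
      (fun a b => Tc c a ∧ Tc c b ∧ VIn (Ann y n) a ∧ VIn (Ann y n) b ∧ Nb a b) a b

/-- The cube of radius `R` around `y`. -/
noncomputable def cube (y : V) (R : ℤ) : Finset V :=
  Finset.Icc (y.1 - R) (y.1 + R) ×ˢ
    (Finset.Icc (y.2.1 - R) (y.2.1 + R) ×ˢ Finset.Icc (y.2.2 - R) (y.2.2 + R))

/-- The box `a + [0, L]³`. -/
def InBox (a : V) (L : ℤ) (x : V) : Prop :=
  (a.1 ≤ x.1 ∧ x.1 ≤ a.1 + L) ∧ (a.2.1 ≤ x.2.1 ∧ x.2.1 ≤ a.2.1 + L) ∧
    (a.2.2 ≤ x.2.2 ∧ x.2.2 ≤ a.2.2 + L)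

/-- A connected component of tricolor triangles of diameter at most `r`. -/
def IsComp (c : Col) (r : ℤ) (C : Finset T3) : Prop :=
  C.Nonempty ∧ (∀ t ∈ C, Tc c t) ∧ (∀ t ∈ C, ∀ t', Tc c t' → Nb t t' → t' ∈ C) ∧
    (∀ t ∈ C, ∀ t' ∈ C, Conn c t t') ∧ (∀ t ∈ C, ∀ t' ∈ C, t'.1 ∈ cube t.1 r)

/-- The representative of a colour difference in `{-1, 0, 1}`. -/
def lift (z : ZMod 3) : ℤ := if z = 0 then 0 else if z = 1 then 1 else -1

/-- The colour difference along a pair. -/
def del (c : Col) (p q : V) : ℤ := lift (c q - c p)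

/-- The flux through a triple. -/
def om (c : Col) (p q r : V) : ℤ := (del c p q + del c q r - del c p r) / 3

/-- The flux of the part `C` of the tricolor set through a triangle. -/
def omC (c : Col) (C : Finset T3) (p q r : V) : ℤ := if (p, q, r) ∈ C then om c p q r else 0

/-- The flux of `C` through the unit squares. -/
def W12 (c : Col) (C : Finset T3) (x : V) : ℤ :=
  omC c C x (x + e1) (x + e1 + e2) - omC c C x (x + e2) (x + e1 + e2)
def W13 (c : Col) (C : Finset T3) (x : V) : ℤ :=
  omC c C x (x + e1) (x + e1 + e3) - omC c C x (x + e3) (x + e1 + e3)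
def W23 (c : Col) (C : Finset T3) (x : V) : ℤ :=
  omC c C x (x + e2) (x + e2 + e3) - omC c C x (x + e3) (x + e2 + e3)

/-- A filling of a closed flux with support in the box `a + [0, L]³`: value on the edges in
direction 1. -/
noncomputable def fill1 (w13 : V → ℤ) (a : V) (L : ℤ) (x : V) : ℤ :=
  if x.2.2 ≤ a.2.2 + L then -∑ s ∈ Finset.Ico a.2.2 x.2.2, w13 (x.1, x.2.1, s) else 0

/-- The same for the edges in direction 2. -/
noncomputable def fill2 (w23 : V → ℤ) (a : V) (L : ℤ) (x : V) : ℤ :=
  if x.2.2 ≤ a.2.2 + L then -∑ s ∈ Finset.Ico a.2.2 x.2.2, w23 (x.1, x.2.1, s) else 0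

/-- The same for the edges in direction 3. -/
noncomputable def fill3 (w13 : V → ℤ) (a : V) (L : ℤ) (x : V) : ℤ :=
  if x.2.2 = a.2.2 + L then
    ∑ u ∈ Finset.Ico a.1 x.1, ∑ s ∈ Finset.Ico a.2.2 (a.2.2 + L + 1), w13 (u, x.2.1, s) else 0

open scoped Classical in
/-- The corner of a box of side `2 r` which contains all base points of a component. -/
noncomputable def corner (r : ℤ) (C : Finset T3) : V :=
  if h : C.Nonempty then h.choose.1 - (r, r, r) else 0

open scoped Classical in
/-- The triangles with base point in the cube of radius `R` around `x`. -/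
noncomputable def TB (x : V) (R : ℤ) : Finset T3 :=
  (cube x R ×ˢ (cube x (R + 1) ×ˢ cube x (R + 1))).filter Tri

open scoped Classical in
/-- The small components near `x`. -/
noncomputable def comps (c : Col) (r : ℤ) (x : V) : Finset (Finset T3) :=
  (TB x (2 * r)).powerset.filter (IsComp c r)

/-- The corrections of the colour differences on the axis edges. -/
noncomputable def bet1 (c : Col) (r : ℤ) (x : V) : ℤ :=
  ∑ C ∈ comps c r x, fill1 (W13 c C) (corner r C) (2 * r) x
noncomputable def bet2 (c : Col) (r : ℤ) (x : V) : ℤ :=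
  ∑ C ∈ comps c r x, fill2 (W23 c C) (corner r C) (2 * r) x
noncomputable def bet3 (c : Col) (r : ℤ) (x : V) : ℤ :=
  ∑ C ∈ comps c r x, fill3 (W13 c C) (corner r C) (2 * r) x

/-- The corrected colour differences on the axis edges. -/
noncomputable def D1 (c : Col) (r : ℤ) (x : V) : ℤ := del c x (x + e1) - 3 * bet1 c r x
noncomputable def D2 (c : Col) (r : ℤ) (x : V) : ℤ := del c x (x + e2) - 3 * bet2 c r x
noncomputable def D3 (c : Col) (r : ℤ) (x : V) : ℤ := del c x (x + e3) - 3 * bet3 c r x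

/-- All tricolor triangles with base point `x` are in small components. -/
def SmallAt (c : Col) (r : ℤ) (x : V) : Prop :=
  ∀ t, Tc c t → t.1 = x → ∃ C, IsComp c r C ∧ t ∈ C

/-- Rotation of all colours on the half space `T ≤ x.1`. -/
def rot (T : ℤ) (c : Col) : Col := fun x => if T ≤ x.1 then c x + 1 else c x

/-- The sum of the corrected differences along a line in direction 1. -/
noncomputable def Sline (c : Col) (r : ℤ) (M : ℕ) (u : V) : ℤ :=
  ∑ i ∈ Finset.range M, D1 c r (u.1 + i, u.2.1, u.2.2)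

/-- The centres used in the covering of the annulus of scale `7 n`. -/
def Ycen (n : ℤ) (k : V) : V := (n * (k.2.1 + k.2.2), n * (k.1 + k.2.2), n * (k.1 + k.2.1))

/-- A closed flux through the unit squares with support in the box `a + [0, L]³`. -/
def Flux (w12 w13 w23 : V → ℤ) (a : V) (L : ℤ) : Prop :=
  (∀ x, w12 x ≠ 0 → InBox a L x) ∧ (∀ x, w13 x ≠ 0 → InBox a L x) ∧
    (∀ x, w23 x ≠ 0 → InBox a L x) ∧
    ∀ x, w23 (x + e1) - w23 x - (w13 (x + e2) - w13 x) + (w12 (x + e3) - w12 x) = 0

open MeasureTheory in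
/-- The uniform law on the three colours. -/
noncomputable def unif : Measure (ZMod 3) := (PMF.uniformOfFintype (ZMod 3)).toMeasure

open MeasureTheory in
/-- The law of independent uniform colours. -/
noncomputable def mu : Measure Col := Measure.infinitePi (fun _ : V => unif)

/-- The property `E` of colourings depends only on the colours in the finite set `S`. -/
def DepOn (E : Col → Prop) (S : Finset V) : Prop :=
  ∀ c c' : Col, (∀ x ∈ S, c x = c' x) → (E c ↔ E c')

end Pool.Agent.Helper94.Tri
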