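import Pool.Agent.Helper94.Tri.Defs

/-!
TR-1. Cubes, and the first part of the filling lemma.

`mem_cube`: unfold, `Finset.mem_product`, `Finset.mem_Icc`, `abs_le`.

`fill_curl12`. Write `x = (x1, x2, x3)`, `a = (a1, a2, a3)`. If `x3 > a3 + L` all four values of
`fill` are `0` and `w12 x = 0` by the support hypothesis. If `x3 ≤ a3 + L`, the left side is
`-∑ s ∈ Ico a3 x3, ((w23 (x1+1,x2,s) - w23 (x1,x2,s)) - (w13 (x1,x2+1,s) - w13 (x1,x2,s)))`, by the
last clause of `Flux` this is `∑ s ∈ Ico a3 x3, (w12 (x1,x2,s+1) - w12 (x1,x2,s))`. For `x3 < a3`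
the sum is empty and `w12 x = 0`. For `a3 ≤ x3` it telescopes to `w12 (x1,x2,x3) - w12 (x1,x2,a3)`
(induction on `x3`, `Int.le_induction`), and `w12 (x1,x2,a3) = 0` for every `x1, x2`: use the last
clause of `Flux` at the point `(x1,x2,a3-1)`, where all other five values vanish by the support
hypotheses.

`fill1_supp`: if the value is not `0` then `x3 ≤ a3 + L` and some `w13 (x1,x2,s) ≠ 0` with
`a3 ≤ s < x3`; this gives the bounds for `x1, x2` and `a3 ≤ x3`. Same for `fill2_supp`.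

`fill1_bound`: at most `L` summands (if `x3 ≤ a3 + L`), each at most `2` in absolute value.
-/

set_option linter.dupNamespace false

namespace Pool.Agent.Helper94.Tri

theorem mem_cube (y : V) (R : ℤ) (x : V) :
    x ∈ cube y R ↔ |x.1 - y.1| ≤ R ∧ |x.2.1 - y.2.1| ≤ R ∧ |x.2.2 - y.2.2| ≤ R := by
  unfold cube
  rw [Finset.mem_product, Finset.mem_product, Finset.mem_Icc, Finset.mem_Icc, Finset.mem_Icc,
    abs_le, abs_le, abs_le]
  constructor
  · rintro ⟨⟨h1, h2⟩, ⟨h3, h4⟩, h5, h6⟩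
    refine ⟨⟨?_, ?_⟩, ⟨?_, ?_⟩, ?_, ?_⟩ <;> linarith
  · rintro ⟨⟨h1, h2⟩, ⟨h3, h4⟩, h5, h6⟩
    refine ⟨⟨?_, ?_⟩, ⟨?_, ?_⟩, ?_, ?_⟩ <;> linarith

private theorem fl_succ (f : ℤ → ℤ) {a b : ℤ} (h : a ≤ b) :
    ∑ s ∈ Finset.Ico a (b + 1), f s = ∑ s ∈ Finset.Ico a b, f s + f b := by
  rw [← Finset.insert_Ico_right_eq_Ico_add_one h, Finset.sum_insert (by simp), add_comm]

private theorem fl_tele (f : ℤ → ℤ) {a b : ℤ} (h : a ≤ b) :
    ∑ s ∈ Finset.Ico a b, (f (s + 1) - f s) = f b - f a := by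
  induction b, h using Int.leInduction with
  | base => simp
  | succ b hb ih =>
    rw [fl_succ _ hb, ih]
    ring

private theorem fl_zero {w : V → ℤ} {a : V} {L : ℤ} (h : ∀ x, w x ≠ 0 → InBox a L x) {x : V}
    (hx : ¬ InBox a L x) : w x = 0 := by
  by_contra hne
  exact hx (h x hne)

theorem fill_curl12 {w12 w13 w23 : V → ℤ} {a : V} {L : ℤ} (h : Flux w12 w13 w23 a L) (x : V) :
    fill2 w23 a L (x + e1) - fill2 w23 a L x - (fill1 w13 a L (x + e2) - fill1 w13 a L x)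
      = w12 x := by
  obtain ⟨h12, h13, h23, hc⟩ := h
  obtain ⟨x1, x2, x3⟩ := x
  obtain ⟨a1, a2, a3⟩ := a
  have hF : ∀ s, w12 (x1, x2, s + 1) - w12 (x1, x2, s) =
      (w13 (x1, x2 + 1, s) - w13 (x1, x2, s)) - (w23 (x1 + 1, x2, s) - w23 (x1, x2, s)) := by
    intro s
    have := hc (x1, x2, s)
    simp only [e1, e2, e3, Prod.mk_add_mk, add_zero] at this
    linarith
  simp only [fill1, fill2, e1, e2, Prod.mk_add_mk, add_zero]
  by_cases hx : x3 ≤ a3 + L
  · simp only [if_pos hx]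
    have e : (-∑ s ∈ Finset.Ico a3 x3, w23 (x1 + 1, x2, s)) - (-∑ s ∈ Finset.Ico a3 x3,
        w23 (x1, x2, s)) - ((-∑ s ∈ Finset.Ico a3 x3, w13 (x1, x2 + 1, s)) -
        (-∑ s ∈ Finset.Ico a3 x3, w13 (x1, x2, s)))
        = ∑ s ∈ Finset.Ico a3 x3, (w12 (x1, x2, s + 1) - w12 (x1, x2, s)) := by
      simp only [hF, Finset.sum_sub_distrib]
      ring
    rw [e]
    rcases le_or_gt a3 x3 with h3 | h3
    · rw [fl_tele (fun s => w12 (x1, x2, s)) h3]
      have hz : w12 (x1, x2, a3) = 0 := by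
        have h1 := hF (a3 - 1)
        have n1 : ∀ y1 y2 : ℤ, ¬ InBox (a1, a2, a3) L (y1, y2, a3 - 1) := by
          rintro y1 y2 ⟨_, _, h4, _⟩
          simp only at h4
          linarith
        rw [fl_zero h12 (n1 _ _), fl_zero h13 (n1 _ _), fl_zero h13 (n1 _ _),
          fl_zero h23 (n1 _ _), fl_zero h23 (n1 _ _)] at h1
        rw [sub_add_cancel] at h1
        linarith
      simp only [hz, sub_zero]
    · rw [Finset.Ico_eq_empty (by omega), Finset.sum_empty]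
      refine (fl_zero h12 ?_).symm
      rintro ⟨_, _, h4, _⟩
      simp only at h4
      linarith
  · simp only [if_neg hx]
    have : w12 (x1, x2, x3) = 0 := by
      refine fl_zero h12 ?_
      rintro ⟨_, _, _, h4⟩
      exact hx h4
    rw [this]
    ring

private theorem fl_supp {w : V → ℤ} {a : V} {L : ℤ} (h : ∀ x, w x ≠ 0 → InBox a L x) {x : V}
    (hx : (if x.2.2 ≤ a.2.2 + L then -∑ s ∈ Finset.Ico a.2.2 x.2.2, w (x.1, x.2.1, s) else 0)
      ≠ 0) : InBox a L x := by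
  by_cases h1 : x.2.2 ≤ a.2.2 + L
  · rw [if_pos h1, neg_ne_zero] at hx
    obtain ⟨s, hs, hne⟩ := Finset.exists_ne_zero_of_sum_ne_zero hx
    rw [Finset.mem_Ico] at hs
    obtain ⟨b1, b2, b3, b4⟩ := h _ hne
    refine ⟨b1, b2, ?_, h1⟩
    linarith [hs.1, hs.2]
  · rw [if_neg h1] at hx
    exact absurd rfl hx

theorem fill1_supp {w12 w13 w23 : V → ℤ} {a : V} {L : ℤ} (h : Flux w12 w13 w23 a L) {x : V}
    (hx : fill1 w13 a L x ≠ 0) : InBox a L x := fl_supp h.2.1 hx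

theorem fill2_supp {w12 w13 w23 : V → ℤ} {a : V} {L : ℤ} (h : Flux w12 w13 w23 a L) {x : V}
    (hx : fill2 w23 a L x ≠ 0) : InBox a L x := fl_supp h.2.2.1 hx

theorem fill1_bound {w13 : V → ℤ} {a : V} {L : ℤ} (hL : 0 ≤ L) (hb : ∀ x, |w13 x| ≤ 2) (x : V) :
    |fill1 w13 a L x| ≤ 2 * (L + 1) := by
  unfold fill1
  split_ifs with h
  · rw [abs_neg]
    refine (Finset.abs_sum_le_sum_abs _ _).trans ?_
    refine (Finset.sum_le_card_nsmul _ _ 2 (fun s _ => hb _)).trans ?_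
    rw [Int.card_Ico, nsmul_eq_mul]
    have h1 : ((x.2.2 - a.2.2).toNat : ℤ) ≤ L := by omega
    linarith
  · rw [abs_zero]
    linarith

end Pool.Agent.Helper94.Tri
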