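import Pool.Agent.Helper94.Tri.Defs

/-!
TR-9. A curl free field on a box is a gradient.

Put `h x = ∑ s ∈ Ico 0 x1, d1 (s,0,0) + ∑ s ∈ Ico 0 x2, d2 (x1,s,0) + ∑ s ∈ Ico 0 x3, d3 (x1,x2,s)`
for `x = (x1,x2,x3)`. For `x` in the box `[0,K]^3`:
direction 3: immediate (`Ico 0 (x3+1)` is `Ico 0 x3` and the point `x3`, as `0 ≤ x3`);
direction 2: the difference is `d2 (x1,x2,0) + ∑ s ∈ Ico 0 x3, (d3 (x1,x2+1,s) - d3 (x1,x2,s))`,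
by `h23` at `(x1,x2,s)` the sum is `∑ (d2 (x1,x2,s+1) - d2 (x1,x2,s)) = d2 x - d2 (x1,x2,0)`;
direction 1: use `h12` at `(x1,s,0)` to get `d1 (x1,0,0) + ∑ (d2 (x1+1,s,0) - d2 (x1,s,0)) =
d1 (x1,x2,0)`, and then `h13` at `(x1,x2,s)` in the same way.
-/

set_option linter.dupNamespace false

namespace Pool.Agent.Helper94.Tri

theorem hgt_ico_succ (f : ℤ → ℤ) {n : ℤ} (hn : 0 ≤ n) :
    ∑ s ∈ Finset.Ico 0 (n + 1), f s = ∑ s ∈ Finset.Ico 0 n, f s + f n := by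
  have h : Finset.Ico 0 (n + 1) = insert n (Finset.Ico 0 n) := by
    ext s
    simp only [Finset.mem_Ico, Finset.mem_insert]
    omega
  rw [h, Finset.sum_insert (by simp), add_comm]

theorem hgt_tele (f : ℤ → ℤ) {n : ℤ} (hn : 0 ≤ n) :
    ∑ s ∈ Finset.Ico 0 n, (f (s + 1) - f s) = f n - f 0 := by
  induction n, hn using Int.le_induction with
  | base => simp
  | succ k hk ih =>
    rw [hgt_ico_succ _ hk, ih]
    ring

theorem hgt_e1 (x y z : ℤ) : ((x, y, z) : V) + e1 = (x + 1, y, z) := by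
  simp [e1]

theorem hgt_e2 (x y z : ℤ) : ((x, y, z) : V) + e2 = (x, y + 1, z) := by
  simp [e2]

theorem hgt_e3 (x y z : ℤ) : ((x, y, z) : V) + e3 = (x, y, z + 1) := by
  simp [e3]

theorem hgt_box {K x y z : ℤ} :
    InBox 0 K (x, y, z) ↔ (0 ≤ x ∧ x ≤ K) ∧ (0 ≤ y ∧ y ≤ K) ∧ (0 ≤ z ∧ z ≤ K) := by
  simp [InBox]

theorem exists_height {d1 d2 d3 : V → ℤ} {K : ℤ}
    (h12 : ∀ x, InBox 0 K x → d2 (x + e1) - d2 x - (d1 (x + e2) - d1 x) = 0)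
    (h13 : ∀ x, InBox 0 K x → d3 (x + e1) - d3 x - (d1 (x + e3) - d1 x) = 0)
    (h23 : ∀ x, InBox 0 K x → d3 (x + e2) - d3 x - (d2 (x + e3) - d2 x) = 0) :
    ∃ h : V → ℤ, ∀ x, InBox 0 K x →
      h (x + e1) = h x + d1 x ∧ h (x + e2) = h x + d2 x ∧ h (x + e3) = h x + d3 x := by
  refine ⟨fun x => ∑ s ∈ Finset.Ico 0 x.1, d1 (s, 0, 0) +
    ∑ s ∈ Finset.Ico 0 x.2.1, d2 (x.1, s, 0) + ∑ s ∈ Finset.Ico 0 x.2.2, d3 (x.1, x.2.1, s), ?_⟩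
  rintro ⟨x, y, z⟩ hx
  rw [hgt_box] at hx
  obtain ⟨⟨hx0, hxK⟩, ⟨hy0, hyK⟩, hz0, hzK⟩ := hx
  have k12 : ∀ s ∈ Finset.Ico 0 y,
      d2 (x + 1, s, 0) - d2 (x, s, 0) = d1 (x, s + 1, 0) - d1 (x, s, 0) := by
    intro s hs
    rw [Finset.mem_Ico] at hs
    have h := h12 (x, s, 0) (hgt_box.2 ⟨⟨hx0, hxK⟩, ⟨hs.1, by omega⟩, le_rfl, by omega⟩)
    rw [hgt_e1, hgt_e2] at h
    linarith
  have k13 : ∀ s ∈ Finset.Ico 0 z,
      d3 (x + 1, y, s) - d3 (x, y, s) = d1 (x, y, s + 1) - d1 (x, y, s) := by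
    intro s hs
    rw [Finset.mem_Ico] at hs
    have h := h13 (x, y, s) (hgt_box.2 ⟨⟨hx0, hxK⟩, ⟨hy0, hyK⟩, hs.1, by omega⟩)
    rw [hgt_e1, hgt_e3] at h
    linarith
  have k23 : ∀ s ∈ Finset.Ico 0 z,
      d3 (x, y + 1, s) - d3 (x, y, s) = d2 (x, y, s + 1) - d2 (x, y, s) := by
    intro s hs
    rw [Finset.mem_Ico] at hs
    have h := h23 (x, y, s) (hgt_box.2 ⟨⟨hx0, hxK⟩, ⟨hy0, hyK⟩, hs.1, by omega⟩)
    rw [hgt_e2, hgt_e3] at h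
    linarith
  have t12 := (Finset.sum_congr rfl k12).trans (hgt_tele (fun s => d1 (x, s, 0)) hy0)
  have t13 := (Finset.sum_congr rfl k13).trans (hgt_tele (fun s => d1 (x, y, s)) hz0)
  have t23 := (Finset.sum_congr rfl k23).trans (hgt_tele (fun s => d2 (x, y, s)) hz0)
  rw [Finset.sum_sub_distrib] at t12 t13 t23
  rw [hgt_e1, hgt_e2, hgt_e3]
  dsimp only
  refine ⟨?_, ?_, ?_⟩
  · rw [hgt_ico_succ (fun s => d1 (s, 0, 0)) hx0]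
    linarith
  · rw [hgt_ico_succ (fun s => d2 (x, s, 0)) hy0]
    linarith
  · rw [hgt_ico_succ (fun s => d3 (x, y, s)) hz0]
    linarith

end Pool.Agent.Helper94.Tri
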