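import Pool.Agent.Helper94.Tri.Fill12
import Pool.Agent.Helper94.Tri.Om
import Pool.Agent.Helper94.Tri.Comps

/-!
TR-7. Locality: the corrections at `x` depend only on the colours in `cube x (2*r+1)`, up to a
common rotation of these colours.
-/

set_option linter.dupNamespace false
set_option linter.unusedVariables false

namespace Pool.Agent.Helper94.Tri

private theorem lc_fwd {R : ℤ} {x p q : V} (hp : p ∈ cube x R) (h : Step p q) :
    q ∈ cube x (R + 1) := by
  rw [mem_cube] at hp ⊢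
  obtain ⟨⟨h1, h2, h3⟩, -⟩ := h
  simp only [Prod.fst_sub, Prod.snd_sub, abs_le] at *
  omega

private theorem lc_bwd {R : ℤ} {x p q : V} (hp : q ∈ cube x R) (h : Step p q) :
    p ∈ cube x (R + 1) := by
  rw [mem_cube] at hp ⊢
  obtain ⟨⟨h1, h2, h3⟩, -⟩ := h
  simp only [Prod.fst_sub, Prod.snd_sub, abs_le] at *
  omega

private theorem lc_mono {R : ℤ} {x p : V} (hp : p ∈ cube x R) : p ∈ cube x (R + 1) := by
  rw [mem_cube] at hp ⊢
  omega

private theorem lc_tet {R : ℤ} {x : V} {t : T3} (ht : t.1 ∈ cube x R) {p q r s : V}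
    (hT : Tet p q r s) (hf : IsFace t p q r s) :
    p ∈ cube x (R + 1) ∧ q ∈ cube x (R + 1) ∧ r ∈ cube x (R + 1) ∧ s ∈ cube x (R + 1) := by
  obtain ⟨h1, h2, h3, h4, h5, h6⟩ := hT
  rcases hf with h | h | h | h
  · have hq : q ∈ cube x R := by rw [h] at ht; exact ht
    exact ⟨lc_bwd hq h1, lc_mono hq, lc_fwd hq h4, lc_fwd hq h5⟩
  all_goals
    have hp : p ∈ cube x R := by rw [h] at ht; exact ht
    exact ⟨lc_mono hp, lc_fwd hp h1, lc_fwd hp h2, lc_fwd hp h3⟩

private theorem lc_face {S : V → Prop} {t : T3} {p q r s : V} (hf : IsFace t p q r s)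
    (hp : S p) (hq : S q) (hr : S r) (hs : S s) : S t.1 ∧ S t.2.1 ∧ S t.2.2 := by
  rcases hf with h | h | h | h
  · rw [h]; exact ⟨hq, hr, hs⟩
  · rw [h]; exact ⟨hp, hr, hs⟩
  · rw [h]; exact ⟨hp, hq, hs⟩
  · rw [h]; exact ⟨hp, hq, hr⟩

private theorem lc_TB {R : ℤ} {x : V} {t : T3} (ht : t ∈ TB x R) :
    t.1 ∈ cube x R ∧ t.2.1 ∈ cube x (R + 1) ∧ t.2.2 ∈ cube x (R + 1) := by
  classical
  unfold TB at ht
  rw [Finset.mem_filter, Finset.mem_product, Finset.mem_product] at ht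
  exact ht.1

private theorem lc_isComp {c c' : Col} {k : ZMod 3} {r : ℤ} {x : V}
    (h : ∀ y ∈ cube x (2 * r + 1), c' y = c y + k) {C : Finset T3} (hC : C ⊆ TB x (2 * r))
    (hI : IsComp c r C) : IsComp c' r C := by
  have hT1 : ∀ t ∈ C, (Tc c' t ↔ Tc c t) := by
    intro t ht
    obtain ⟨h1, h2, h3⟩ := lc_TB (hC ht)
    exact Tc_congr (h _ (lc_mono h1)) (h _ h2) (h _ h3)
  have hT2 : ∀ t ∈ C, ∀ t', Nb t t' → (Tc c' t' ↔ Tc c t') := by
    rintro t ht t' ⟨p, q, u, s, hT, hf, hf'⟩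
    obtain ⟨h1, -, -⟩ := lc_TB (hC ht)
    obtain ⟨hp, hq, hu, hs⟩ := lc_tet h1 hT hf
    obtain ⟨g1, g2, g3⟩ := lc_face (S := fun y => c' y = c y + k) hf' (h _ hp) (h _ hq) (h _ hu)
      (h _ hs)
    exact Tc_congr g1 g2 g3
  obtain ⟨i1, i2, i3, i4, i5⟩ := hI
  refine ⟨i1, fun t ht => (hT1 t ht).2 (i2 t ht),
    fun t ht t' ht' hn => i3 t ht t' ((hT2 t ht t' hn).1 ht') hn, ?_, i5⟩
  intro t ht t' ht'
  have hconn := i4 t ht t' ht'
  have key : t' ∈ C ∧ Conn c' t t' := by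
    clear ht'
    induction hconn with
    | refl => exact ⟨ht, Relation.ReflTransGen.refl⟩
    | tail _ h2 ih =>
      have hb := i3 _ ih.1 _ h2.2.1 h2.2.2
      exact ⟨hb, ih.2.tail ⟨(hT1 _ ih.1).2 h2.1, (hT1 _ hb).2 h2.2.1, h2.2.2⟩⟩
  exact key.2

theorem comps_congr {c c' : Col} {k : ZMod 3} {r : ℤ} (hr : 0 ≤ r) {x : V}
    (h : ∀ y ∈ cube x (2 * r + 1), c' y = c y + k) : comps c' r x = comps c r x := by
  classical
  unfold comps
  refine Finset.filter_congr fun C hC => ?_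
  rw [Finset.mem_powerset] at hC
  refine ⟨lc_isComp (k := -k) ?_ hC, lc_isComp h hC⟩
  intro y hy
  rw [h y hy]
  ring

private theorem lc_omC {c c' : Col} {k : ZMod 3} {r : ℤ} {x : V}
    (h : ∀ y ∈ cube x (2 * r + 1), c' y = c y + k) {C : Finset T3} (hC : C ⊆ TB x (2 * r))
    (p q u : V) : omC c' C p q u = omC c C p q u := by
  unfold omC
  by_cases hm : (p, q, u) ∈ C
  · rw [if_pos hm, if_pos hm]
    obtain ⟨h1, h2, h3⟩ := lc_TB (hC hm)
    exact om_congr (h _ (lc_mono h1)) (h _ h2) (h _ h3)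
  · rw [if_neg hm, if_neg hm]

private theorem lc_sub {c : Col} {r : ℤ} {x : V} {C : Finset T3} (h : C ∈ comps c r x) :
    C ⊆ TB x (2 * r) := by
  classical
  unfold comps at h
  exact Finset.mem_powerset.1 (Finset.mem_filter.1 h).1

private theorem lc_del {c c' : Col} {k : ZMod 3} {r : ℤ} (hr : 0 ≤ r) {x : V}
    (h : ∀ y ∈ cube x (2 * r + 1), c' y = c y + k) {e : V} (he : Bit e) :
    del c' x (x + e) = del c x (x + e) := by
  have h1 : x ∈ cube x (2 * r + 1) := by
    rw [mem_cube]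
    simp only [sub_self, abs_zero]
    omega
  have h2 : x + e ∈ cube x (2 * r + 1) := by
    rw [mem_cube]
    obtain ⟨h1, h2, h3⟩ := he
    simp only [Prod.fst_add, Prod.snd_add, abs_le]
    omega
  unfold del
  rw [h _ h1, h _ h2, add_sub_add_right_eq_sub]

theorem D1_congr {c c' : Col} {k : ZMod 3} {r : ℤ} (hr : 0 ≤ r) {x : V}
    (h : ∀ y ∈ cube x (2 * r + 1), c' y = c y + k) : D1 c' r x = D1 c r x := by
  have h1 : del c' x (x + e1) = del c x (x + e1) :=
    lc_del hr h (by unfold Bit e1; simp)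
  have h2 : ∀ C ∈ comps c r x, fill1 (W13 c' C) (corner r C) (2 * r) x =
      fill1 (W13 c C) (corner r C) (2 * r) x := by
    intro C hC
    have hw : W13 c' C = W13 c C := by
      funext y
      unfold W13
      rw [lc_omC h (lc_sub hC), lc_omC h (lc_sub hC)]
    rw [hw]
  have h3 : bet1 c' r x = bet1 c r x := by
    unfold bet1
    rw [comps_congr hr h]
    exact Finset.sum_congr rfl h2
  unfold D1
  rw [h1, h3]

theorem D2_congr {c c' : Col} {k : ZMod 3} {r : ℤ} (hr : 0 ≤ r) {x : V}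
    (h : ∀ y ∈ cube x (2 * r + 1), c' y = c y + k) : D2 c' r x = D2 c r x := by
  have h1 : del c' x (x + e2) = del c x (x + e2) :=
    lc_del hr h (by unfold Bit e2; simp)
  have h2 : ∀ C ∈ comps c r x, fill2 (W23 c' C) (corner r C) (2 * r) x =
      fill2 (W23 c C) (corner r C) (2 * r) x := by
    intro C hC
    have hw : W23 c' C = W23 c C := by
      funext y
      unfold W23
      rw [lc_omC h (lc_sub hC), lc_omC h (lc_sub hC)]
    rw [hw]
  have h3 : bet2 c' r x = bet2 c r x := by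
    unfold bet2
    rw [comps_congr hr h]
    exact Finset.sum_congr rfl h2
  unfold D2
  rw [h1, h3]

theorem D3_congr {c c' : Col} {k : ZMod 3} {r : ℤ} (hr : 0 ≤ r) {x : V}
    (h : ∀ y ∈ cube x (2 * r + 1), c' y = c y + k) : D3 c' r x = D3 c r x := by
  have h1 : del c' x (x + e3) = del c x (x + e3) :=
    lc_del hr h (by unfold Bit e3; simp)
  have h2 : ∀ C ∈ comps c r x, fill3 (W13 c' C) (corner r C) (2 * r) x =
      fill3 (W13 c C) (corner r C) (2 * r) x := by
    intro C hC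
    have hw : W13 c' C = W13 c C := by
      funext y
      unfold W13
      rw [lc_omC h (lc_sub hC), lc_omC h (lc_sub hC)]
    rw [hw]
  have h3 : bet3 c' r x = bet3 c r x := by
    unfold bet3
    rw [comps_congr hr h]
    exact Finset.sum_congr rfl h2
  unfold D3
  rw [h1, h3]

end Pool.Agent.Helper94.Tri
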