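import Pool.Agent.Helper94.Tri.Defs

/-!
TR-18. The final choice of the scales (pure analysis). For fixed `n` take `N` the smallest integer
at least `A * r^11` with `A = 10^20` (note `r ≥ 3`), where
`r = 3 * 7^k * n`; then the first two conditions hold for all `k`, and the third holds for large `k`
because `(7^k)^33 ≤ (2^k)^99` and `x^99 * (1/2)^x → 0`.
-/

set_option linter.dupNamespace false

namespace Pool.Agent.Helper94.Tri

private lemma numbers_lim (C : ℝ) :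
    ∃ k : ℕ, C * (((2 ^ k : ℕ) : ℝ) ^ 99 * (1 / 2 : ℝ) ^ (2 ^ k)) < 1 / 8 := by
  have h1 : Filter.Tendsto (fun n : ℕ => (n : ℝ) ^ 99 * (1 / 2 : ℝ) ^ n) Filter.atTop (nhds 0) :=
    tendsto_pow_const_mul_const_pow_of_abs_lt_one 99 (by rw [abs_of_pos] <;> norm_num)
  have h2 : Filter.Tendsto (fun k : ℕ => 2 ^ k) Filter.atTop Filter.atTop :=
    tendsto_pow_atTop_atTop_of_one_lt (by norm_num : (1 : ℕ) < 2)
  have h3 := (h1.comp h2).const_mul C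
  rw [mul_zero] at h3
  have h4 := h3.eventually (gt_mem_nhds (show (0 : ℝ) < 1 / 8 by norm_num))
  obtain ⟨k, hk⟩ := h4.exists
  exact ⟨k, hk⟩

theorem choose_scales (n : ℕ) (hn : 1 ≤ n) : ∃ k : ℕ, ∃ N : ℕ,
    let r : ℝ := 3 * 7 ^ k * n
    8 * (2 * r + 1) ≤ N ∧
      64 * (400 * (4 * r + 1) ^ 4) ^ 2 * (4 * (2 * r + 1) + 1) ^ 3 / N < 1 / 8 ∧
      (3 * N + 2 * r + 1) ^ 3 * (1 / 2 : ℝ) ^ (2 ^ k) < 1 / 8 := by
  obtain ⟨k, hk⟩ := numbers_lim (((7 : ℝ) * 10 ^ 20) ^ 3 * (3 * n) ^ 33)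
  have hn1 : (1 : ℝ) ≤ n := by exact_mod_cast hn
  have h7 : (1 : ℝ) ≤ 7 ^ k := one_le_pow₀ (by norm_num)
  refine ⟨k, ⌈(10 : ℝ) ^ 20 * (3 * 7 ^ k * n) ^ 11⌉₊, ?_⟩
  intro r
  have hr : (3 : ℝ) ≤ r := by
    change (3 : ℝ) ≤ 3 * 7 ^ k * n
    nlinarith [mul_le_mul h7 hn1 zero_le_one (by positivity)]
  have hr0 : 0 < r := by linarith
  have hr10 : (1 : ℝ) ≤ r ^ 10 := one_le_pow₀ (by linarith)
  have hr11 : r ≤ r ^ 11 := by nlinarith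
  set N := ⌈(10 : ℝ) ^ 20 * (3 * 7 ^ k * n) ^ 11⌉₊ with hN
  have hN1 : (10 : ℝ) ^ 20 * r ^ 11 ≤ N := Nat.le_ceil _
  have hN2 : (N : ℝ) ≤ 10 ^ 20 * r ^ 11 + 1 :=
    (Nat.ceil_lt_add_one (by positivity)).le
  have hNpos : (0 : ℝ) < N := lt_of_lt_of_le (by positivity) hN1
  refine ⟨?_, ?_, ?_⟩
  · nlinarith
  · rw [div_lt_iff₀ hNpos]
    have e1 : (4 * r + 1) ^ 4 ≤ (5 * r) ^ 4 := by
      apply pow_le_pow_left₀ (by positivity); linarith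
    have e2 : (4 * (2 * r + 1) + 1) ^ 3 ≤ (10 * r) ^ 3 := by
      apply pow_le_pow_left₀ (by positivity); linarith
    have e3 : (400 * (4 * r + 1) ^ 4) ^ 2 ≤ (400 * (5 * r) ^ 4) ^ 2 := by
      apply pow_le_pow_left₀ (by positivity); linarith
    calc 64 * (400 * (4 * r + 1) ^ 4) ^ 2 * (4 * (2 * r + 1) + 1) ^ 3
        ≤ 64 * (400 * (5 * r) ^ 4) ^ 2 * (10 * r) ^ 3 := by
          apply mul_le_mul _ e2 (by positivity) (by positivity)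
          linarith
      _ = 4000000000000000 * r ^ 11 := by ring
      _ < 1 / 8 * ((10 : ℝ) ^ 20 * r ^ 11) := by
          have : (0 : ℝ) < r ^ 11 := by positivity
          nlinarith
      _ ≤ 1 / 8 * N := by linarith
  · have e1 : 3 * (N : ℝ) + 2 * r + 1 ≤ 7 * 10 ^ 20 * r ^ 11 := by
      nlinarith
    have e2 : (3 * (N : ℝ) + 2 * r + 1) ^ 3 ≤ (7 * 10 ^ 20 * r ^ 11) ^ 3 :=
      pow_le_pow_left₀ (by positivity) e1 3
    have e3 : ((7 : ℝ) ^ k) ^ 33 ≤ (((2 ^ k : ℕ) : ℝ)) ^ 99 := by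
      have : ((7 : ℝ) ^ k) ≤ ((2 : ℝ) ^ k) ^ 3 := by
        rw [← pow_mul, mul_comm k 3, pow_mul]
        apply pow_le_pow_left₀ <;> norm_num
      calc ((7 : ℝ) ^ k) ^ 33 ≤ (((2 : ℝ) ^ k) ^ 3) ^ 33 :=
            pow_le_pow_left₀ (by positivity) this _
        _ = (((2 ^ k : ℕ) : ℝ)) ^ 99 := by
            push_cast
            rw [← pow_mul]
    have hq : (0 : ℝ) < (1 / 2 : ℝ) ^ (2 ^ k) := by positivity
    calc (3 * (N : ℝ) + 2 * r + 1) ^ 3 * (1 / 2 : ℝ) ^ (2 ^ k)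
        ≤ (7 * 10 ^ 20 * r ^ 11) ^ 3 * (1 / 2 : ℝ) ^ (2 ^ k) :=
          mul_le_mul_of_nonneg_right e2 hq.le
      _ = ((7 : ℝ) * 10 ^ 20) ^ 3 * (3 * n) ^ 33 * (((7 : ℝ) ^ k) ^ 33 * (1 / 2 : ℝ) ^ (2 ^ k)) := by
          have : r = 3 * n * 7 ^ k := by change (3 : ℝ) * 7 ^ k * n = _; ring
          rw [this, mul_pow, ← pow_mul, mul_pow (3 * (n : ℝ)) (7 ^ k)]
          ring
      _ ≤ ((7 : ℝ) * 10 ^ 20) ^ 3 * (3 * n) ^ 33 *
            (((2 ^ k : ℕ) : ℝ) ^ 99 * (1 / 2 : ℝ) ^ (2 ^ k)) := by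
          apply mul_le_mul_of_nonneg_left _ (by positivity)
          exact mul_le_mul_of_nonneg_right e3 hq.le
      _ < 1 / 8 := hk

end Pool.Agent.Helper94.Tri
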