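import Pool.Agent.Helper94.Tri.Defs

/-!
TR-14. The product measure `mu`. Useful Mathlib facts (file `Mathlib/Probability/ProductMeasure`,
`Mathlib/Probability/Independence/InfinitePi`): `Measure.infinitePi_map_restrict`,
`MeasureTheory.Measure.map_infinitePi_infinitePi_of_inj`, `Measure.infinitePi_map_pi`,
`ProbabilityTheory.iIndepFun_infinitePi`, `ProbabilityTheory.iIndepFun.indepFun_finset`,
`ProbabilityTheory.IndepFun.integral_mul_eq_mul_integral` (or similar name).

`measurableSet_of_depOn`, `measurable_of_dep`: a property/function which depends only on the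
colours in `S` is `g ∘ (fun c (x : S) => c x)` for some `g` on the finite discrete space
`S → ZMod 3` (extend a colouring of `S` by `0` outside); the restriction is measurable and every `g`
on a finite discrete space is measurable (`measurable_of_finite`/`measurable_of_countable`).

`mu_translate`: `map_infinitePi_infinitePi_of_inj` for the injective map `x ↦ x + y`, or
`infinitePi_map_piCongrLeft`.

`mu_inter`, `integral_mul_of_dep`: `iIndepFun_infinitePi` gives that the coordinates are
independent, `indepFun_finset S T hST` that the two restrictions are independent, then compose with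
`g` as above (`IndepFun.comp`).

`measurePreserving_rot`: `rot T c = fun x => F x (c x)` with `F x` the identity or adding `1`;
`infinitePi_map_pi` and the fact that adding `1` preserves the uniform law on `ZMod 3` (check on
singletons: `PMF.toMeasure_apply_singleton`, `PMF.uniformOfFintype_apply`).
-/

set_option linter.dupNamespace false

namespace Pool.Agent.Helper94.Tri

open MeasureTheory

theorem measurableSet_all (s : Set (ZMod 3)) : MeasurableSet s :=
  MeasurableSpace.measurableSet_top

instance isProbabilityMeasure_unif : IsProbabilityMeasure unif := by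
  unfold unif; infer_instance

theorem isProbabilityMeasure_mu : IsProbabilityMeasure mu := by
  unfold mu; infer_instance

/-- Extension of a colouring of `S` by `0`. -/
noncomputable def ext0 (S : Finset V) (g : S → ZMod 3) : Col := by
  classical exact fun x => if h : x ∈ S then g ⟨x, h⟩ else 0

theorem ext0_restrict (S : Finset V) (c : Col) : ∀ x ∈ S, c x = ext0 S (S.restrict c) x := by
  intro x hx
  unfold ext0
  rw [dif_pos hx]
  rfl

theorem measurable_dom {β : Type} [MeasurableSpace β] (S : Finset V)
    (g : (S → ZMod 3) → β) : Measurable g := measurable_of_countable g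

theorem measurable_of_dep' {β : Type} [MeasurableSpace β] {f : Col → β} {S : Finset V}
    (h : ∀ c c' : Col, (∀ x ∈ S, c x = c' x) → f c = f c') :
    ∃ g : (S → ZMod 3) → β, Measurable g ∧ f = g ∘ S.restrict := by
  refine ⟨fun u => f (ext0 S u), measurable_dom S _, ?_⟩
  funext c
  exact h _ _ (ext0_restrict S c)

theorem measurableSet_of_depOn {E : Col → Prop} {S : Finset V} (h : DepOn E S) :
    MeasurableSet {c | E c} := by
  have hd : ∀ c c' : Col, (∀ x ∈ S, c x = c' x) → E c = E c' :=
    fun c c' hc => propext (h c c' hc)
  obtain ⟨g, hg, hEg⟩ := measurable_of_dep' hd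
  have h2 : Measurable E := by
    rw [hEg]
    exact hg.comp (Finset.measurable_restrict S)
  exact measurableSet_setOfPred.2 h2

theorem mu_translate {E : Col → Prop} (hE : MeasurableSet {c | E c}) (y : V) :
    mu {c | E (fun x => c (x + y))} = mu {c | E c} := by
  have hinj : Function.Injective (fun x : V => x + y) := add_left_injective y
  have h := Measure.map_infinitePi_infinitePi_of_inj (P := fun _ : V => unif) hinj
  have h2 : mu.map (fun c : Col => fun x => c (x + y)) = mu := h
  have hm : Measurable (fun c : Col => fun x => c (x + y)) := by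
    rw [measurable_pi_iff]
    intro x
    exact measurable_pi_apply (x + y)
  calc mu {c | E (fun x => c (x + y))}
      = mu.map (fun c : Col => fun x => c (x + y)) {c | E c} := by
        rw [Measure.map_apply hm hE]; rfl
    _ = mu {c | E c} := by rw [h2]

theorem indep_restrict {S T : Finset V} (hST : Disjoint S T) :
    ProbabilityTheory.IndepFun (fun c : Col => S.restrict c) (fun c : Col => T.restrict c) mu := by
  have h1 : ProbabilityTheory.iIndepFun (fun (i : V) (c : Col) => c i) mu :=
    ProbabilityTheory.iIndepFun_infinitePi (P := fun _ : V => unif)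
      (X := fun _ (w : ZMod 3) => w) (fun _ => measurable_id)
  exact h1.indepFun_finset S T hST (fun i => measurable_pi_apply i)

theorem mu_inter {E F : Col → Prop} {S T : Finset V} (hE : DepOn E S) (hF : DepOn F T)
    (hST : Disjoint S T) : mu {c | E c ∧ F c} = mu {c | E c} * mu {c | F c} := by
  have hdE : ∀ c c' : Col, (∀ x ∈ S, c x = c' x) → E c = E c' :=
    fun c c' hc => propext (hE c c' hc)
  have hdF : ∀ c c' : Col, (∀ x ∈ T, c x = c' x) → F c = F c' :=
    fun c c' hc => propext (hF c c' hc)
  obtain ⟨g, hg, hEg⟩ := measurable_of_dep' hdE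
  obtain ⟨k, hk, hFk⟩ := measurable_of_dep' hdF
  have h := (indep_restrict hST).measure_inter_preimage_eq_mul {u | g u} {u | k u}
    (measurableSet_setOfPred.2 hg) (measurableSet_setOfPred.2 hk)
  have e1 : {c | E c} = (fun c : Col => S.restrict c) ⁻¹' {u | g u} := by
    rw [hEg]; rfl
  have e2 : {c | F c} = (fun c : Col => T.restrict c) ⁻¹' {u | k u} := by
    rw [hFk]; rfl
  have e3 : {c | E c ∧ F c} = {c | E c} ∩ {c | F c} := rfl
  rw [e3, e1, e2]
  exact h

theorem unif_map_add : unif.map (fun z : ZMod 3 => z + 1) = unif := by
  apply Measure.ext_of_singleton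
  intro a
  rw [Measure.map_apply (measurable_of_countable _) (measurableSet_all _)]
  have e : (fun z : ZMod 3 => z + 1) ⁻¹' {a} = {a - 1} := by
    ext z
    simp only [Set.mem_preimage, Set.mem_singleton_iff]
    constructor
    · intro h; rw [← h]; ring
    · intro h; rw [h]; ring
  rw [e]
  unfold unif
  rw [PMF.toMeasure_apply_singleton _ _ (measurableSet_all _),
    PMF.toMeasure_apply_singleton _ _ (measurableSet_all _)]
  simp

theorem measurePreserving_rot (T : ℤ) : MeasurePreserving (rot T) mu mu := by
  have hm : ∀ x : V, Measurable (fun z : ZMod 3 => if T ≤ x.1 then z + 1 else z) :=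
    fun x => measurable_of_countable _
  have h := Measure.infinitePi_map_pi (fun _ : V => unif) hm
  have e1 : (fun (c : Col) (i : V) => (fun z : ZMod 3 => if T ≤ i.1 then z + 1 else z) (c i)) =
      rot T := rfl
  have hmeas : Measurable (rot T) := by
    rw [measurable_pi_iff]
    intro x
    exact (hm x).comp (measurable_pi_apply x)
  refine ⟨hmeas, ?_⟩
  rw [e1] at h
  have e2 : (fun i : V => unif.map (fun z : ZMod 3 => if T ≤ i.1 then z + 1 else z)) =
      fun _ : V => unif := by
    funext i
    by_cases hi : T ≤ i.1
    · simp only [hi, if_true]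
      exact unif_map_add
    · simp only [hi, if_false]
      exact Measure.map_id
  unfold mu
  rw [h]
  simp only [e2]

/-- a function of the colours in a finite set is measurable -/
theorem measurable_of_dep {f : Col → ℝ} {S : Finset V}
    (h : ∀ c c' : Col, (∀ x ∈ S, c x = c' x) → f c = f c') : Measurable f := by
  obtain ⟨g, hg, hfg⟩ := measurable_of_dep' h
  rw [hfg]
  exact hg.comp (Finset.measurable_restrict S)

/-- functions of the colours in disjoint finite sets are uncorrelated -/
theorem integral_mul_of_dep {f g : Col → ℝ} {S T : Finset V} {B : ℝ}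
    (hf : ∀ c c' : Col, (∀ x ∈ S, c x = c' x) → f c = f c')
    (hg : ∀ c c' : Col, (∀ x ∈ T, c x = c' x) → g c = g c')
    (hfB : ∀ c, |f c| ≤ B) (hgB : ∀ c, |g c| ≤ B) (hST : Disjoint S T) :
    ∫ c, f c * g c ∂mu = (∫ c, f c ∂mu) * ∫ c, g c ∂mu := by
  obtain ⟨f0, hf0, hff⟩ := measurable_of_dep' hf
  obtain ⟨g0, hg0, hgg⟩ := measurable_of_dep' hg
  have hi : ProbabilityTheory.IndepFun f g mu := by
    rw [hff, hgg]
    exact (indep_restrict hST).comp hf0 hg0
  exact hi.integral_fun_mul_eq_mul_integral (measurable_of_dep hf).aestronglyMeasurable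
    (measurable_of_dep hg).aestronglyMeasurable

end Pool.Agent.Helper94.Tri
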