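import Pool.Agent.Helper94.Tri.Fill12
import Pool.Agent.Helper94.Tri.Crossing

/-!
TR-13. A crossing of the annulus of scale `7 n` contains crossings of two disjoint annuli of scale
`n` whose centres are among `23^3` points each.

Notation: for `v : V` put `phi v = (-v1+v2+v3, v1-v2+v3, v1+v2-v3)`, so `rho v` is the sup norm of
`phi v`, and `phi (Ycen n k) = (2 n k1, 2 n k2, 2 n k3)`. For every `p : V` there is `k : V` with
`rho (p - Ycen n k) ≤ n` and `2 n |k_i| ≤ |phi_i p| + n`: take `k_i` with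
`|phi_i p - 2 n k_i| ≤ n` (nearest integer: `k_i = (phi_i p + n) / (2 n)`, `Int.emod`).

`cross_seven`: take `a, b` from `Cross c 0 (7*n)`. `Conn c a b` (`Relation.ReflTransGen.mono`),
`Tc c b`, `VIn (Ann 0 (7*n)) b` (induction/cases on the last step). `a` is in a tetrahedron with a
point `v`, `rho v ≤ 7n`, so `rho (a.1) ≤ 7n+2` (`rho_le_two_of_tet`, `rho_add_le`); `b` is in a
tetrahedron with a point `w`, `rho w > 21n`, so `21n-2 < rho (b.1) ≤ 21n`. Choose `k` for `p = a.1`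
and `k'` for `p = b.1`: `|k_i| ≤ (8n+2)/(2n) ≤ 5` and `|k'_i| ≤ 22n/(2n) = 11`. By `rho_add_le`,
`rho (b.1 - Ycen n k) ≥ 21n-2+1 - (7n+2) - n > 3n`, so `cross_of_conn` gives `Cross c (Ycen n k) n`;
`rho (a.1 - Ycen n k') ≥ (21n-1) - n - (7n+2) > 3n`, so `cross_of_conn` (for `conn_symm`) gives
`Cross c (Ycen n k') n`; `rho (Ycen n k - Ycen n k') ≥ (21n-1) - (7n+2) - 2n > 6n`.

`cross_congr`: `Tc` of a triangle with all vertices in the annulus depends only on the colours in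
the annulus; `Relation.ReflTransGen.mono` both ways.

`cross_translate`: translate all triangles by `-y`: `Tet, Step, IsFace, Ann` are translation
invariant. Let `sh t = (t.1-y, t.2.1-y, t.2.2-y)`; use `Relation.ReflTransGen.lift`.
-/

set_option linter.dupNamespace false

namespace Pool.Agent.Helper94.Tri

/-! ### norm -/

theorem sev_rho_le {x : V} {m : ℤ} : rho x ≤ m ↔
    |-x.1 + x.2.1 + x.2.2| ≤ m ∧ |x.1 - x.2.1 + x.2.2| ≤ m ∧ |x.1 + x.2.1 - x.2.2| ≤ m := by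
  simp only [rho, max_le_iff]

theorem sev_nearest {n : ℤ} (hn : 1 ≤ n) (f : ℤ) :
    ∃ k : ℤ, |f - 2 * n * k| ≤ n ∧ |2 * n * k| ≤ |f| + n := by
  have h2 : 0 < 2 * n := by omega
  have h1 := Int.emod_add_mul_ediv (f + n) (2 * n)
  have h3 := Int.emod_nonneg (f + n) h2.ne'
  have h4 := Int.emod_lt_of_pos (f + n) h2
  have h5 : |f - 2 * n * ((f + n) / (2 * n))| ≤ n := by
    rw [abs_le]
    constructor <;> linarith
  refine ⟨(f + n) / (2 * n), h5, ?_⟩
  have h6 : 2 * n * ((f + n) / (2 * n)) = f + -(f - 2 * n * ((f + n) / (2 * n))) := by ring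
  calc |2 * n * ((f + n) / (2 * n))| = |f + -(f - 2 * n * ((f + n) / (2 * n)))| := by rw [← h6]
    _ ≤ |f| + |-(f - 2 * n * ((f + n) / (2 * n)))| := abs_add_le _ _
    _ ≤ |f| + n := by rw [abs_neg]; linarith

theorem sev_small {n k : ℤ} (hn : 1 ≤ n) (h : |2 * n * k| ≤ 22 * n) : |k - 0| ≤ 11 := by
  rw [sub_zero]
  rw [abs_mul, abs_of_pos (by omega : 0 < 2 * n)] at h
  by_contra hk
  have h1 : 12 ≤ |k| := by omega
  have h2 : 2 * n * 12 ≤ 2 * n * |k| := mul_le_mul_of_nonneg_left h1 (by omega)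
  linarith

theorem sev_center {n : ℤ} (hn : 1 ≤ n) (p : V) {m : ℤ} (hp : rho p ≤ m) (hm : m ≤ 21 * n) :
    ∃ k ∈ cube 0 11, rho (p - Ycen n k) ≤ n := by
  obtain ⟨k1, h1, h1'⟩ := sev_nearest hn (-p.1 + p.2.1 + p.2.2)
  obtain ⟨k2, h2, h2'⟩ := sev_nearest hn (p.1 - p.2.1 + p.2.2)
  obtain ⟨k3, h3, h3'⟩ := sev_nearest hn (p.1 + p.2.1 - p.2.2)
  obtain ⟨g1, g2, g3⟩ := sev_rho_le.1 hp
  refine ⟨(k1, k2, k3), ?_, ?_⟩
  · rw [mem_cube]
    exact ⟨sev_small hn (by linarith), sev_small hn (by linarith), sev_small hn (by linarith)⟩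
  · rw [sev_rho_le]
    have e1 : -(p - Ycen n (k1, k2, k3)).1 + (p - Ycen n (k1, k2, k3)).2.1 +
        (p - Ycen n (k1, k2, k3)).2.2 = -p.1 + p.2.1 + p.2.2 - 2 * n * k1 := by
      simp only [Ycen, Prod.fst_sub, Prod.snd_sub]
      ring
    have e2 : (p - Ycen n (k1, k2, k3)).1 - (p - Ycen n (k1, k2, k3)).2.1 +
        (p - Ycen n (k1, k2, k3)).2.2 = p.1 - p.2.1 + p.2.2 - 2 * n * k2 := by
      simp only [Ycen, Prod.fst_sub, Prod.snd_sub]
      ring
    have e3 : (p - Ycen n (k1, k2, k3)).1 + (p - Ycen n (k1, k2, k3)).2.1 -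
        (p - Ycen n (k1, k2, k3)).2.2 = p.1 + p.2.1 - p.2.2 - 2 * n * k3 := by
      simp only [Ycen, Prod.fst_sub, Prod.snd_sub]
      ring
    rw [e1, e2, e3]
    exact ⟨h1, h2, h3⟩

theorem sev_touch {S : V → Prop} {t : T3} (h : Touch S t) :
    ∃ v, S v ∧ rho (t.1 - v) ≤ 2 ∧ rho (v - t.1) ≤ 2 := by
  obtain ⟨p, q, r, s, hT, hf, hS⟩ := h
  have ht : t.1 = p ∨ t.1 = q ∨ t.1 = r ∨ t.1 = s := by
    rcases hf with h | h | h | h <;> simp [h]
  rcases hS with h | h | h | h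
  · exact ⟨p, h, rho_le_two_of_tet hT ht (by simp), rho_le_two_of_tet hT (by simp) ht⟩
  · exact ⟨q, h, rho_le_two_of_tet hT ht (by simp), rho_le_two_of_tet hT (by simp) ht⟩
  · exact ⟨r, h, rho_le_two_of_tet hT ht (by simp), rho_le_two_of_tet hT (by simp) ht⟩
  · exact ⟨s, h, rho_le_two_of_tet hT ht (by simp), rho_le_two_of_tet hT (by simp) ht⟩

theorem sev_rho_comm (x y : V) : rho (x - y) = rho (y - x) := by
  rw [← rho_neg (y - x), neg_sub]

theorem cross_seven {c : Col} {n : ℤ} (hn : 1 ≤ n) (h : Cross c 0 (7 * n)) :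
    ∃ k ∈ cube 0 11, ∃ k' ∈ cube 0 11, Cross c (Ycen n k) n ∧ Cross c (Ycen n k') n ∧
      6 * n < rho (Ycen n k - Ycen n k') := by
  obtain ⟨a, b, hTa, hVa, hta, htb, hpath⟩ := h
  have hconn : Conn c a b :=
    Relation.ReflTransGen.mono (fun _ _ h => ⟨h.1, h.2.1, h.2.2.2.2⟩) _ _ hpath
  have hb : Tc c b ∧ VIn (Ann 0 (7 * n)) b := by
    rcases Relation.ReflTransGen.cases_tail hpath with h | ⟨d, -, h⟩
    · rw [h]
      exact ⟨hTa, hVa⟩
    · exact ⟨h.2.1, h.2.2.2.1⟩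
  obtain ⟨v, hv, hv1, -⟩ := sev_touch hta
  obtain ⟨w, hw, -, hw2⟩ := sev_touch htb
  rw [sub_zero] at hv hw
  have hb1 : rho b.1 ≤ 21 * n := by
    have h1 := hb.2.1.2
    rw [sub_zero] at h1
    linarith
  have ha1 : rho a.1 ≤ 7 * n + 2 := by
    have h1 := rho_add_le (a.1 - v) v
    rw [sub_add_cancel] at h1
    linarith
  have hb2 : 21 * n - 1 ≤ rho b.1 := by
    have h1 := rho_add_le (w - b.1) b.1
    rw [sub_add_cancel] at h1
    omega
  obtain ⟨k, hk, hk1⟩ := sev_center hn a.1 ha1 (by omega)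
  obtain ⟨k', hk', hk1'⟩ := sev_center hn b.1 hb1 (by omega)
  have t1 := rho_add_le (b.1 - Ycen n k) (Ycen n k)
  rw [sub_add_cancel] at t1
  have t2 := rho_add_le (Ycen n k - a.1) a.1
  rw [sub_add_cancel, sev_rho_comm (Ycen n k) a.1] at t2
  have t3 := rho_add_le (b.1 - Ycen n k') (Ycen n k')
  rw [sub_add_cancel] at t3
  have t4 := rho_add_le (Ycen n k' - a.1) a.1
  rw [sub_add_cancel, sev_rho_comm (Ycen n k') a.1] at t4
  have t5 := rho_add_le (Ycen n k' - Ycen n k) (Ycen n k)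
  rw [sub_add_cancel, sev_rho_comm (Ycen n k') (Ycen n k)] at t5
  refine ⟨k, hk, k', hk', ?_, ?_, ?_⟩
  · exact cross_of_conn hn hTa hconn (Or.inl hk1) (Or.inl (by linarith))
  · exact cross_of_conn hn hb.1 (conn_symm hconn) (Or.inl hk1') (Or.inl (by linarith))
  · linarith

theorem sev_tc_congr {c c' : Col} {y : V} {n : ℤ} (h : ∀ x, Ann y n x → c x = c' x) {t : T3}
    (ht : Tc c t) (hV : VIn (Ann y n) t) : Tc c' t := by
  obtain ⟨h1, h2, h3, h4⟩ := ht
  refine ⟨h1, ?_, ?_, ?_⟩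
  · rw [← h _ hV.1, ← h _ hV.2.1]
    exact h2
  · rw [← h _ hV.2.1, ← h _ hV.2.2]
    exact h3
  · rw [← h _ hV.1, ← h _ hV.2.2]
    exact h4

theorem sev_cross_congr {c c' : Col} {y : V} {n : ℤ} (h : ∀ x, Ann y n x → c x = c' x)
    (hc : Cross c y n) : Cross c' y n := by
  obtain ⟨a, b, hTa, hVa, hta, htb, hpath⟩ := hc
  refine ⟨a, b, sev_tc_congr h hTa hVa, hVa, hta, htb,
    Relation.ReflTransGen.mono (fun s t hst => ?_) _ _ hpath⟩
  obtain ⟨h1, h2, h3, h4, h5⟩ := hst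
  exact ⟨sev_tc_congr h h1 h3, sev_tc_congr h h2 h4, h3, h4, h5⟩

/-- the colours which decide whether the annulus is crossed -/
theorem cross_congr {c c' : Col} {y : V} {n : ℤ} (h : ∀ x, Ann y n x → c x = c' x) :
    Cross c y n ↔ Cross c' y n :=
  ⟨sev_cross_congr h, sev_cross_congr fun x hx => (h x hx).symm⟩

/-! ### translation -/

theorem sev_step {p q : V} (z : V) (h : Step p q) : Step (p - z) (q - z) := by
  obtain ⟨h1, h2⟩ := h
  refine ⟨?_, ?_⟩
  · rw [sub_sub_sub_cancel_right]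
    exact h1
  · intro h3
    exact h2 (sub_left_injective h3)

theorem sev_tet {p q r s : V} (z : V) (h : Tet p q r s) :
    Tet (p - z) (q - z) (r - z) (s - z) := by
  obtain ⟨h1, h2, h3, h4, h5, h6⟩ := h
  exact ⟨sev_step z h1, sev_step z h2, sev_step z h3, sev_step z h4, sev_step z h5, sev_step z h6⟩

/-- the translated triangle -/
def sevSh (z : V) (t : T3) : T3 := (t.1 - z, t.2.1 - z, t.2.2 - z)

theorem sev_face {t : T3} {p q r s : V} (z : V) (h : IsFace t p q r s) :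
    IsFace (sevSh z t) (p - z) (q - z) (r - z) (s - z) := by
  rcases h with h | h | h | h <;> subst h <;> simp [IsFace, sevSh]

theorem sev_tc {c : Col} {t : T3} (z : V) (h : Tc c t) : Tc (fun x => c (x + z)) (sevSh z t) := by
  obtain ⟨⟨h1, h2, h3⟩, h4, h5, h6⟩ := h
  refine ⟨⟨sev_step z h1, sev_step z h2, sev_step z h3⟩, ?_, ?_, ?_⟩
  · simpa [sevSh] using h4
  · simpa [sevSh] using h5
  · simpa [sevSh] using h6

theorem sev_nb {a b : T3} (z : V) (h : Nb a b) : Nb (sevSh z a) (sevSh z b) := by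
  obtain ⟨p, q, r, s, h1, h2, h3⟩ := h
  exact ⟨p - z, q - z, r - z, s - z, sev_tet z h1, sev_face z h2, sev_face z h3⟩

theorem sev_vin {y : V} {n : ℤ} {t : T3} (z : V) (h : VIn (Ann y n) t) :
    VIn (Ann (y - z) n) (sevSh z t) := by
  obtain ⟨h1, h2, h3⟩ := h
  refine ⟨?_, ?_, ?_⟩
  · simp only [Ann, sevSh, sub_sub_sub_cancel_right]
    exact h1
  · simp only [Ann, sevSh, sub_sub_sub_cancel_right]
    exact h2
  · simp only [Ann, sevSh, sub_sub_sub_cancel_right]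
    exact h3

theorem sev_touch_shift {S S' : V → Prop} {t : T3} (z : V) (hS : ∀ x, S x → S' (x - z))
    (h : Touch S t) : Touch S' (sevSh z t) := by
  obtain ⟨p, q, r, s, h1, h2, h3⟩ := h
  refine ⟨p - z, q - z, r - z, s - z, sev_tet z h1, sev_face z h2, ?_⟩
  rcases h3 with h | h | h | h
  · exact Or.inl (hS _ h)
  · exact Or.inr (Or.inl (hS _ h))
  · exact Or.inr (Or.inr (Or.inl (hS _ h)))
  · exact Or.inr (Or.inr (Or.inr (hS _ h)))

theorem sev_cross_shift {c : Col} {y : V} {n : ℤ} (z : V) (h : Cross c y n) :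
    Cross (fun x => c (x + z)) (y - z) n := by
  obtain ⟨a, b, hTa, hVa, hta, htb, hpath⟩ := h
  refine ⟨sevSh z a, sevSh z b, sev_tc z hTa, sev_vin z hVa, sev_touch_shift z ?_ hta,
    sev_touch_shift z ?_ htb, Relation.ReflTransGen.lift (sevSh z) ?_ _ _ hpath⟩
  · intro x hx
    rw [sub_sub_sub_cancel_right]
    exact hx
  · intro x hx
    rw [sub_sub_sub_cancel_right]
    exact hx
  · rintro s t ⟨h1, h2, h3, h4, h5⟩
    exact ⟨sev_tc z h1, sev_tc z h2, sev_vin z h3, sev_vin z h4, sev_nb z h5⟩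

theorem cross_translate (c : Col) (y : V) (n : ℤ) :
    Cross c y n ↔ Cross (fun x => c (x + y)) 0 n := by
  constructor
  · intro h
    have h1 := sev_cross_shift y h
    rwa [sub_self] at h1
  · intro h
    have h1 := sev_cross_shift (-y) h
    simp only [sub_neg_eq_add, zero_add, neg_add_cancel_right] at h1
    exact h1

end Pool.Agent.Helper94.Tri
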