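import Pool.Agent.Helper94.Tri.SmallOfNot
import Pool.Agent.Helper94.Tri.Seven
import Pool.Agent.Helper94.Tri.Prob

/-!
TR-15. The recursion for the crossing probabilities.

`depOn_cross_ann`: `S = (cube y (3*n)).filter (Ann y n)` (classical), `cross_congr`, and
`mem_cube_of_rho`. `mu_cross_eq`: `cross_translate` and `mu_translate` (measurability from
`measurableSet_of_depOn` and `depOn_cross_ann`).

`mu_cross_seven`: by `cross_seven` the event is contained in the union over `k, k' ∈ cube 0 11`,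
restricted to the pairs with `6*n < rho (Ycen n k - Ycen n k')`, of the events
`Cross c (Ycen n k) n ∧ Cross c (Ycen n k') n`. For such a pair the two annuli are disjoint
(`rho_add_le`, `rho_neg`), so by `mu_inter` and `mu_cross_eq` its probability is the square.
`measure_biUnion_finset_le`, and `(cube 0 11).card = 23^3`. Then pass to `toReal` (probability
measure, everything finite; `ENNReal.toReal_mono`, `ENNReal.toReal_mul`).

`mu_cross_iterate`: let `a k = 23^6 * (mu {c | Cross c 0 (7^k * n)}).toReal`. Then `a 0 ≤ 1/2` and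
`a (k+1) ≤ (a k)^2` (`7^(k+1)*n = 7*(7^k*n)`), so `a k ≤ (1/2)^(2^k)` by induction, and the
probability is at most `a k`.
-/

set_option linter.dupNamespace false

namespace Pool.Agent.Helper94.Tri

open MeasureTheory

theorem depOn_cross_ann (y : V) (n : ℤ) : ∃ S : Finset V, (∀ x ∈ S, Ann y n x) ∧
    DepOn (fun c => Cross c y n) S := by
  classical
  refine ⟨(cube y (3 * n)).filter (fun x => Ann y n x), ?_, ?_⟩
  · intro x hx
    exact (Finset.mem_filter.1 hx).2
  · intro c c' h
    apply cross_congr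
    intro x hx
    apply h
    rw [Finset.mem_filter]
    exact ⟨mem_cube_of_rho hx.2, hx⟩

theorem mu_cross_eq (y : V) (n : ℤ) : mu {c | Cross c y n} = mu {c | Cross c 0 n} := by
  obtain ⟨S, _, hS⟩ := depOn_cross_ann 0 n
  have h1 := mu_translate (E := fun c => Cross c 0 n) (measurableSet_of_depOn hS) y
  rw [← h1]
  congr 1
  ext c
  exact cross_translate c y n

theorem card_cube11 : (cube 0 11).card = 23 ^ 3 := by
  unfold cube
  rw [Finset.card_product, Finset.card_product]
  simp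

theorem mu_cross_pair {n : ℤ} {y y' : V} (h : 6 * n < rho (y - y')) :
    mu {c | Cross c y n ∧ Cross c y' n} = mu {c | Cross c 0 n} * mu {c | Cross c 0 n} := by
  obtain ⟨S, hS, hS'⟩ := depOn_cross_ann y n
  obtain ⟨T, hT, hT'⟩ := depOn_cross_ann y' n
  have hd : Disjoint S T := by
    rw [Finset.disjoint_left]
    intro x hx hx'
    have h1 := (hS x hx).2
    have h2 := (hT x hx').2
    have h3 := rho_add_le (y - x) (x - y')
    have h4 : y - x + (x - y') = y - y' := by abel
    have h5 : rho (y - x) = rho (x - y) := by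
      rw [← rho_neg (x - y), neg_sub]
    rw [h4, h5] at h3
    omega
  rw [mu_inter hS' hT' hd, mu_cross_eq y n, mu_cross_eq y' n]

theorem mu_cross_cover {n N : ℤ} (K : Finset V) (hK : ∀ c : Col, Cross c 0 N →
    ∃ k ∈ K, ∃ k' ∈ K, Cross c (Ycen n k) n ∧ Cross c (Ycen n k') n ∧
      6 * n < rho (Ycen n k - Ycen n k')) :
    (mu {c | Cross c 0 N}).toReal ≤ (K.card * K.card : ℕ) * (mu {c | Cross c 0 n}).toReal ^ 2 := by
  classical
  have hP : IsProbabilityMeasure mu := isProbabilityMeasure_mu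
  set m := mu {c | Cross c 0 n} with hm
  set P : Finset (V × V) := (K ×ˢ K).filter
    (fun q => 6 * n < rho (Ycen n q.1 - Ycen n q.2)) with hPdef
  have hsub : {c | Cross c 0 N} ⊆
      ⋃ q ∈ P, {c | Cross c (Ycen n q.1) n ∧ Cross c (Ycen n q.2) n} := by
    intro c hc
    obtain ⟨k, hk, k', hk', h1, h2, h3⟩ := hK c hc
    rw [Set.mem_iUnion₂]
    refine ⟨(k, k'), ?_, h1, h2⟩
    rw [hPdef, Finset.mem_filter, Finset.mem_product]
    exact ⟨⟨hk, hk'⟩, h3⟩
  have h1 : mu {c | Cross c 0 N} ≤ (P.card : ENNReal) * (m * m) := by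
    calc mu {c | Cross c 0 N} ≤
        mu (⋃ q ∈ P, {c | Cross c (Ycen n q.1) n ∧ Cross c (Ycen n q.2) n}) := measure_mono hsub
      _ ≤ ∑ q ∈ P, mu {c | Cross c (Ycen n q.1) n ∧ Cross c (Ycen n q.2) n} :=
          measure_biUnion_finset_le _ _
      _ = ∑ q ∈ P, m * m := by
          apply Finset.sum_congr rfl
          intro q hq
          rw [hPdef, Finset.mem_filter] at hq
          exact mu_cross_pair hq.2
      _ = (P.card : ENNReal) * (m * m) := by rw [Finset.sum_const, nsmul_eq_mul]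
  have hmf : m ≠ ⊤ := measure_ne_top mu _
  have hfin : (P.card : ENNReal) * (m * m) ≠ ⊤ :=
    ENNReal.mul_ne_top (ENNReal.natCast_ne_top _) (ENNReal.mul_ne_top hmf hmf)
  have h2 := ENNReal.toReal_mono hfin h1
  rw [ENNReal.toReal_mul, ENNReal.toReal_mul, ENNReal.toReal_natCast] at h2
  have hcard : (P.card : ℝ) ≤ (K.card * K.card : ℕ) := by
    have h3 : P.card ≤ (K ×ˢ K).card := Finset.card_filter_le _ _
    rw [Finset.card_product] at h3
    exact (Nat.cast_le (α := ℝ)).2 h3
  have h5 : (0 : ℝ) ≤ m.toReal * m.toReal := mul_self_nonneg _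
  calc (mu {c | Cross c 0 N}).toReal ≤ (P.card : ℝ) * (m.toReal * m.toReal) := h2
    _ ≤ (K.card * K.card : ℕ) * (m.toReal * m.toReal) := mul_le_mul_of_nonneg_right hcard h5
    _ = (K.card * K.card : ℕ) * m.toReal ^ 2 := by rw [sq]

theorem mu_cross_seven {n : ℤ} (hn : 1 ≤ n) :
    (mu {c | Cross c 0 (7 * n)}).toReal ≤ 23 ^ 6 * (mu {c | Cross c 0 n}).toReal ^ 2 := by
  have h := mu_cross_cover (N := 7 * n) (cube 0 11) (fun c hc => cross_seven hn hc)
  rw [card_cube11, ← pow_add, Nat.cast_pow] at h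
  exact h

theorem mu_cross_iterate {n : ℤ} (hn : 1 ≤ n)
    (h : (mu {c | Cross c 0 n}).toReal ≤ 1 / (2 * 23 ^ 6)) (k : ℕ) :
    (mu {c | Cross c 0 (7 ^ k * n)}).toReal ≤ (1 / 2) ^ (2 ^ k) := by
  have key : ∀ k : ℕ, 23 ^ 6 * (mu {c | Cross c 0 (7 ^ k * n)}).toReal ≤ (1 / 2 : ℝ) ^ (2 ^ k) := by
    intro k
    induction k with
    | zero =>
      rw [pow_zero, one_mul, pow_zero, pow_one]
      have h2 : (23 : ℝ) ^ 6 * (mu {c | Cross c 0 n}).toReal ≤ 23 ^ 6 * (1 / (2 * 23 ^ 6)) :=
        mul_le_mul_of_nonneg_left h (by norm_num)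
      refine h2.trans (le_of_eq ?_)
      norm_num
    | succ k ih =>
      have h1 : (1 : ℤ) ≤ 7 ^ k * n := by
        have : (1 : ℤ) ≤ 7 ^ k := one_le_pow₀ (by norm_num)
        nlinarith
      have h2 := mu_cross_seven h1
      have e1 : 7 * (7 ^ k * n) = 7 ^ (k + 1) * n := by ring
      rw [e1] at h2
      set a := (mu {c | Cross c 0 (7 ^ k * n)}).toReal with ha
      have ha0 : 0 ≤ a := ENNReal.toReal_nonneg
      calc (23 : ℝ) ^ 6 * (mu {c | Cross c 0 (7 ^ (k + 1) * n)}).toReal ≤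
          23 ^ 6 * (23 ^ 6 * a ^ 2) := mul_le_mul_of_nonneg_left h2 (by norm_num)
        _ = (23 ^ 6 * a) ^ 2 := by ring
        _ ≤ ((1 / 2 : ℝ) ^ (2 ^ k)) ^ 2 := pow_le_pow_left₀ (by positivity) ih 2
        _ = (1 / 2 : ℝ) ^ (2 ^ (k + 1)) := by rw [← pow_mul, pow_succ]
  have h1 := key k
  have h2 : (mu {c | Cross c 0 (7 ^ k * n)}).toReal ≤
      23 ^ 6 * (mu {c | Cross c 0 (7 ^ k * n)}).toReal := by
    have : 0 ≤ (mu {c | Cross c 0 (7 ^ k * n)}).toReal := ENNReal.toReal_nonneg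
    nlinarith
  exact h2.trans h1

end Pool.Agent.Helper94.Tri
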