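import Pool.Agent.Helper94.Tri.Fill12
import Pool.Agent.Helper94.Tri.Prob

/-!
TR-16. Variance of a sum of local functions.

Put `F i c = f (v i) c - ∫ f (v i)`. Expand `(∑ F i)^2 = ∑ i, ∑ j, F i * F j` and integrate termwise
(bounded measurable functions on a probability space are integrable). For a pair with
`v j ∉ cube (v i) (2*R)` the cubes `cube (v i) R` and `cube (v j) R` are disjoint (`mem_cube`,
triangle inequality), so by `integral_mul_of_dep` (applied to `F i`, `F j`, bounded by `2*B`)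
`∫ F i * F j = (∫ F i) * (∫ F j) = 0`. For the other pairs `|F i * F j| ≤ (2*B)^2`. (`B ≥ 0` if `I`
is nonempty, from `hB`.)
-/

set_option linter.dupNamespace false

namespace Pool.Agent.Helper94.Tri

open MeasureTheory

theorem variance_sum {ι : Type} (I : Finset ι) (v : ι → V) (f : V → Col → ℝ) {R : ℤ} {B : ℝ}
    (hf : ∀ x c c', (∀ y ∈ cube x R, c y = c' y) → f x c = f x c')
    (hB : ∀ x c, |f x c| ≤ B) :
    ∫ c, (∑ i ∈ I, (f (v i) c - ∫ c', f (v i) c' ∂mu)) ^ 2 ∂mu ≤
      4 * B ^ 2 * (((I ×ˢ I).filter fun q => v q.2 ∈ cube (v q.1) (2 * R)).card : ℝ) := by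
  classical
  have hP : IsProbabilityMeasure mu := isProbabilityMeasure_mu
  have hB0 : 0 ≤ B := (abs_nonneg _).trans (hB 0 0)
  have hmf : ∀ x, Measurable (f x) := fun x => measurable_of_dep (hf x)
  have hif : ∀ x, Integrable (f x) mu := by
    intro x
    refine Integrable.of_bound (hmf x).aestronglyMeasurable B ?_
    filter_upwards with c
    rw [Real.norm_eq_abs]
    exact hB x c
  set m : V → ℝ := fun x => ∫ c', f x c' ∂mu with hm
  have hmB : ∀ x, |m x| ≤ B := by
    intro x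
    have h1 : ‖∫ c', f x c' ∂mu‖ ≤ B * (mu Set.univ).toReal := by
      apply norm_integral_le_of_norm_le_const
      filter_upwards with c
      rw [Real.norm_eq_abs]
      exact hB x c
    rw [measure_univ, ENNReal.toReal_one, mul_one, Real.norm_eq_abs] at h1
    exact h1
  set F : V → Col → ℝ := fun x c => f x c - m x with hF
  have hFdep : ∀ x c c', (∀ y ∈ cube x R, c y = c' y) → F x c = F x c' := by
    intro x c c' h
    simp only [hF]
    rw [hf x c c' h]
  have hFB : ∀ x c, |F x c| ≤ 2 * B := by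
    intro x c
    simp only [hF]
    calc |f x c - m x| ≤ |f x c| + |m x| := abs_sub _ _
      _ ≤ 2 * B := by linarith [hB x c, hmB x]
  have hFm : ∀ x, Measurable (F x) := fun x => measurable_of_dep (hFdep x)
  have hFF : ∀ x y, Integrable (fun c => F x c * F y c) mu := by
    intro x y
    refine Integrable.of_bound ((hFm x).mul (hFm y)).aestronglyMeasurable (2 * B * (2 * B)) ?_
    filter_upwards with c
    rw [Real.norm_eq_abs, abs_mul]
    exact mul_le_mul (hFB x c) (hFB y c) (abs_nonneg _) (by linarith)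
  have hF0 : ∀ x, ∫ c, F x c ∂mu = 0 := by
    intro x
    simp only [hF]
    rw [integral_sub (hif x) (integrable_const _)]
    simp [hm]
  have e1 : ∀ c, (∑ i ∈ I, (f (v i) c - ∫ c', f (v i) c' ∂mu)) ^ 2 =
      ∑ q ∈ I ×ˢ I, F (v q.1) c * F (v q.2) c := by
    intro c
    rw [sq, Finset.sum_mul_sum, Finset.sum_product]
  simp_rw [e1]
  rw [integral_finsetSum _ (fun q _ => hFF (v q.1) (v q.2))]
  rw [← Finset.sum_filter_add_sum_filter_not (I ×ˢ I) (fun q => v q.2 ∈ cube (v q.1) (2 * R))]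
  have h2 : ∑ q ∈ (I ×ˢ I).filter (fun q => ¬ v q.2 ∈ cube (v q.1) (2 * R)),
      ∫ c, F (v q.1) c * F (v q.2) c ∂mu = 0 := by
    apply Finset.sum_eq_zero
    intro q hq
    have hq2 := (Finset.mem_filter.1 hq).2
    have hdisj : Disjoint (cube (v q.1) R) (cube (v q.2) R) := by
      rw [Finset.disjoint_left]
      intro x hx hx'
      apply hq2
      rw [mem_cube] at hx hx' ⊢
      obtain ⟨a1, a2, a3⟩ := hx
      obtain ⟨b1, b2, b3⟩ := hx'
      rw [abs_le] at a1 a2 a3 b1 b2 b3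
      refine ⟨abs_le.2 ⟨?_, ?_⟩, abs_le.2 ⟨?_, ?_⟩, abs_le.2 ⟨?_, ?_⟩⟩ <;> omega
    rw [integral_mul_of_dep (hFdep (v q.1)) (hFdep (v q.2)) (hFB (v q.1)) (hFB (v q.2)) hdisj,
      hF0, hF0, mul_zero]
  rw [h2, add_zero]
  have h3 : ∀ q ∈ (I ×ˢ I).filter (fun q => v q.2 ∈ cube (v q.1) (2 * R)),
      ∫ c, F (v q.1) c * F (v q.2) c ∂mu ≤ 4 * B ^ 2 := by
    intro q _
    have h4 : ∫ c, F (v q.1) c * F (v q.2) c ∂mu ≤ ∫ _ : Col, 4 * B ^ 2 ∂mu := by
      apply integral_mono (hFF _ _) (integrable_const _)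
      intro c
      have h5 : F (v q.1) c * F (v q.2) c ≤ |F (v q.1) c| * |F (v q.2) c| := by
        rw [← abs_mul]; exact le_abs_self _
      have h6 := mul_le_mul (hFB (v q.1) c) (hFB (v q.2) c) (abs_nonneg _)
        (show (0 : ℝ) ≤ 2 * B by linarith)
      show F (v q.1) c * F (v q.2) c ≤ 4 * B ^ 2
      nlinarith
    rw [integral_const, probReal_univ, one_smul] at h4
    exact h4
  calc ∑ q ∈ (I ×ˢ I).filter (fun q => v q.2 ∈ cube (v q.1) (2 * R)),
      ∫ c, F (v q.1) c * F (v q.2) c ∂mu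
      ≤ ∑ q ∈ (I ×ˢ I).filter (fun q => v q.2 ∈ cube (v q.1) (2 * R)), 4 * B ^ 2 :=
        Finset.sum_le_sum h3
    _ = 4 * B ^ 2 * (((I ×ˢ I).filter fun q => v q.2 ∈ cube (v q.1) (2 * R)).card : ℝ) := by
        rw [Finset.sum_const, nsmul_eq_mul, mul_comm]

end Pool.Agent.Helper94.Tri
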