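import Pool.Agent.Helper94.Tri.Rot
import Pool.Agent.Helper94.Tri.Recursion
import Pool.Agent.Helper94.Tri.Variance
import Pool.Agent.Helper94.Tri.Count
import Pool.Agent.Helper94.Tri.Numbers

/-!
Assembly: at the symmetric point the crossing probability of every annulus is at least
`1 / (2 * 23 ^ 6)`.
-/

set_option linter.dupNamespace false

namespace Pool.Agent.Helper94.Tri

open MeasureTheory

theorem Idx_sum (N : ℕ) (c : Col) (r : ℤ) :
    ∑ q ∈ Idx N, (D1 c r (pt q) : ℝ) =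
      ∑ u ∈ (Finset.Ico (0 : ℤ) N ×ˢ (Finset.Ico (0 : ℤ) N ×ˢ Finset.Ico (0 : ℤ) N)),
        (Sline c r (2 * N) u : ℝ) := by
  unfold Idx
  rw [Finset.sum_product]
  refine Finset.sum_congr rfl fun u _ => ?_
  unfold Sline
  push_cast
  rfl

theorem card_box (N : ℕ) :
    (((Finset.Ico (0 : ℤ) N ×ˢ (Finset.Ico (0 : ℤ) N ×ˢ Finset.Ico (0 : ℤ) N)) :
      Finset V).card : ℝ) = (N : ℝ) ^ 3 := by
  rw [Finset.card_product, Finset.card_product]
  simp only [Int.card_Ico, sub_zero, Int.toNat_natCast]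
  push_cast
  ring

/-- the difference of the line sums, summed over the box -/
theorem Z_diff {c : Col} {r : ℤ} {N : ℕ} (hr : 0 ≤ r) (hN1 : 1 ≤ N)
    (hN : 4 * r + 3 ≤ N)
    (h : ∀ x, InBox 0 (3 * N) x → SmallAt c r x)
    (h' : ∀ x, InBox 0 (3 * N) x → SmallAt (rot (N + 2 * r + 2) c) r x) :
    ∃ k : ℤ, ∑ q ∈ Idx N, (D1 (rot (N + 2 * r + 2) c) r (pt q) : ℝ)
      - ∑ q ∈ Idx N, (D1 c r (pt q) : ℝ) = (N : ℝ) ^ 3 * (1 + 3 * k) := by
  obtain ⟨k, hk⟩ := rot_diff (c := c) (r := r) (N := N) (T := N + 2 * r + 2) hr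
    (by exact_mod_cast hN1) (by linarith) (by linarith) h h'
  refine ⟨k, ?_⟩
  rw [Idx_sum, Idx_sum, ← Finset.sum_sub_distrib, ← card_box, ← nsmul_eq_mul]
  rw [← Finset.sum_const]
  refine Finset.sum_congr rfl fun u hu => ?_
  simp only [Finset.mem_product, Finset.mem_Ico] at hu
  obtain ⟨⟨a1, a2⟩, ⟨b1, b2⟩, c1, c2⟩ := hu
  have := hk u a1 a2 b1 b2 c1 c2
  have e : (2 * (N : ℤ)).toNat = 2 * N := by omega
  rw [e] at this
  exact_mod_cast this

theorem dep_D1 {r : ℤ} (hr : 0 ≤ r) (x : V) (c c' : Col)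
    (h : ∀ y ∈ cube x (2 * r + 1), c y = c' y) : (D1 c r x : ℝ) = D1 c' r x := by
  have : D1 c r x = D1 c' r x :=
    D1_congr (k := 0) hr fun y hy => by rw [h y hy, add_zero]
  rw [this]

theorem bad_measurable (P : Finset V) (m : ℤ) : MeasurableSet {c | ∃ p ∈ P, Cross c p m} := by
  have : {c : Col | ∃ p ∈ P, Cross c p m} = ⋃ p ∈ P, {c | Cross c p m} := by
    ext c; simp
  rw [this]
  refine Finset.measurableSet_biUnion _ fun p _ => ?_
  obtain ⟨S, _, hS⟩ := depOn_cross_ann p m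
  exact measurableSet_of_depOn hS

theorem mu_bad_le (P : Finset V) (m : ℤ) :
    mu.real {c | ∃ p ∈ P, Cross c p m} ≤ P.card * mu.real {c | Cross c 0 m} := by
  have := isProbabilityMeasure_mu
  have : {c : Col | ∃ p ∈ P, Cross c p m} = ⋃ p ∈ P, {c | Cross c p m} := by
    ext c; simp
  rw [this]
  refine (measureReal_biUnion_finset_le _ _).trans ?_
  have : ∀ p ∈ P, mu.real {c | Cross c p m} = mu.real {c | Cross c 0 m} := by
    intro p _
    unfold Measure.real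
    rw [mu_cross_eq]
  rw [Finset.sum_congr rfl this, Finset.sum_const, nsmul_eq_mul]

theorem card_cube {y : V} {R : ℤ} (hR : 0 ≤ R) : ((cube y R).card : ℝ) = (2 * R + 1) ^ 3 := by
  unfold cube
  rw [Finset.card_product, Finset.card_product]
  simp only [Int.card_Icc]
  have e : ∀ z : ℤ, (((z + R + 1 - (z - R)).toNat : ℕ) : ℝ) = 2 * R + 1 := by
    intro z
    have : ((z + R + 1 - (z - R)).toNat : ℤ) = 2 * R + 1 := by
      rw [Int.toNat_of_nonneg (by linarith)]; ring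
    exact_mod_cast this
  push_cast
  rw [e, e, e]
  ring

theorem cross_lower {n : ℕ} (hn : 1 ≤ n) :
    1 / (2 * 23 ^ 6) ≤ (mu {c | Cross c 0 n}).toReal := by
  have := isProbabilityMeasure_mu
  by_contra hcon
  push Not at hcon
  obtain ⟨k, N, hkN⟩ := choose_scales n hn
  simp only at hkN
  obtain ⟨hN8, hvar, hunion⟩ := hkN
  -- integer scales
  set m : ℤ := 7 ^ k * n with hm
  set r : ℤ := 3 * m with hrdef
  have hm1 : 1 ≤ m := by
    rw [hm]
    have h7 : (1 : ℤ) ≤ 7 ^ k := one_le_pow₀ (by norm_num)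
    have hn' : (1 : ℤ) ≤ n := by exact_mod_cast hn
    nlinarith
  have hr1 : 1 ≤ r := by omega
  have hrR : (3 * 7 ^ k * n : ℝ) = (r : ℝ) := by
    rw [hrdef, hm]; push_cast; ring
  rw [hrR] at hN8 hvar hunion
  have hrpos : (1 : ℝ) ≤ r := by exact_mod_cast hr1
  have hNr : 8 * (2 * r + 1) ≤ (N : ℤ) := by exact_mod_cast hN8
  have hN1 : 1 ≤ N := by
    have : (1 : ℤ) ≤ N := by linarith
    exact_mod_cast this
  have hNpos : (0 : ℝ) < N := by exact_mod_cast hN1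
  have hpi : mu.real {c | Cross c 0 m} ≤ (1 / 2) ^ (2 ^ k) := by
    have := mu_cross_iterate (n := n) (by exact_mod_cast hn) hcon.le k
    exact this
  -- the bad event
  set P : Finset V := Finset.Icc (-r) (3 * N + r) ×ˢ
    (Finset.Icc (-r) (3 * N + r) ×ˢ Finset.Icc (-r) (3 * N + r)) with hP
  have hPcard : (P.card : ℝ) = (3 * N + 2 * r + 1) ^ 3 := by
    rw [hP, Finset.card_product, Finset.card_product]
    simp only [Int.card_Icc]
    have e : (((3 * (N : ℤ) + r + 1 - -r).toNat : ℕ) : ℝ) = 3 * N + 2 * r + 1 := by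
      have : ((3 * (N : ℤ) + r + 1 - -r).toNat : ℤ) = 3 * N + 2 * r + 1 := by
        rw [Int.toNat_of_nonneg (by linarith)]; ring
      exact_mod_cast this
    push_cast
    rw [e]
    ring
  set Bad : Set Col := {c | ∃ p ∈ P, Cross c p m} with hBad
  have hBadm : MeasurableSet Bad := bad_measurable P m
  have hBadle : mu.real Bad < 1 / 8 := by
    refine (mu_bad_le P m).trans_lt ?_
    rw [hPcard]
    refine lt_of_le_of_lt ?_ hunion
    exact mul_le_mul_of_nonneg_left hpi (by positivity)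
  have hgood : ∀ c, c ∉ Bad → ∀ x, InBox 0 (3 * N) x → SmallAt c r x := by
    intro c hc x hx
    refine smallAt_of_not_cross hm1 fun p hp hcr => hc ⟨p, ?_, hcr⟩
    rw [mem_cube] at hp
    obtain ⟨⟨a1, a2⟩, ⟨b1, b2⟩, c1, c2⟩ := hx
    obtain ⟨p1, p2, p3⟩ := hp
    rw [abs_le] at p1 p2 p3
    rw [hP]
    simp only [Finset.mem_product, Finset.mem_Icc]
    simp only [Prod.fst_zero, Prod.snd_zero] at a1 a2 b1 b2 c1 c2
    refine ⟨⟨by linarith, by linarith⟩, ⟨by linarith, by linarith⟩, by linarith, by linarith⟩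
  -- the centred sum
  set f : V → Col → ℝ := fun x c => (D1 c r x : ℝ) with hf
  set Z : Col → ℝ := fun c => ∑ q ∈ Idx N, (f (pt q) c - ∫ c', f (pt q) c' ∂mu) with hZ
  have hdep : ∀ x c c', (∀ y ∈ cube x (2 * r + 1), c y = c' y) → f x c = f x c' :=
    fun x c c' h => dep_D1 (by linarith) x c c' h
  have hfb : ∀ x c, |f x c| ≤ 400 * (4 * (r : ℝ) + 1) ^ 4 := by
    intro x c
    have := abs_D1_le c hr1 x
    show |(D1 c r x : ℝ)| ≤ _
    exact_mod_cast this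
  have hZm : Measurable Z := by
    rw [hZ]
    refine Finset.measurable_sum _ fun q _ => ?_
    exact (measurable_of_dep (hdep (pt q))).sub_const _
  have hvarZ : ∫ c, Z c ^ 2 ∂mu ≤
      16 * (400 * (4 * (r : ℝ) + 1) ^ 4) ^ 2 * (4 * (2 * r + 1) + 1) ^ 3 * (N : ℝ) ^ 5 := by
    have h1 := variance_sum (Idx N) pt f (R := 2 * r + 1) hdep hfb
    have h2 := card_pairs N (R := 2 * r + 1) (by linarith)
    have h2' : ((((Idx N) ×ˢ (Idx N)).filter
        fun q => pt q.2 ∈ cube (pt q.1) (2 * (2 * r + 1))).card : ℝ) ≤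
        4 * N ^ 5 * (4 * (2 * r + 1) + 1) ^ 3 := by exact_mod_cast h2
    refine h1.trans ?_
    have h3 : (0 : ℝ) ≤ 4 * (400 * (4 * (r : ℝ) + 1) ^ 4) ^ 2 := by positivity
    refine (mul_le_mul_of_nonneg_left h2' h3).trans (le_of_eq ?_)
    ring
  have hcheb : mu.real {c | (N : ℝ) ^ 3 / 2 ≤ |Z c|} < 1 / 8 := by
    have hZb : ∃ B, ∀ c, |Z c| ≤ B := by
      refine ⟨∑ q ∈ Idx N, (400 * (4 * (r : ℝ) + 1) ^ 4 + |∫ c', f (pt q) c' ∂mu|), fun c => ?_⟩
      refine (Finset.abs_sum_le_sum_abs _ _).trans (Finset.sum_le_sum fun q _ => ?_)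
      exact (abs_sub _ _).trans (add_le_add (hfb _ _) le_rfl)
    obtain ⟨B, hB⟩ := hZb
    have hint : Integrable (fun c => Z c ^ 2) mu := by
      refine Integrable.of_bound (hZm.pow_const 2).aestronglyMeasurable (B ^ 2)
        (Filter.Eventually.of_forall fun c => ?_)
      rw [Real.norm_eq_abs, abs_pow]
      exact pow_le_pow_left₀ (abs_nonneg _) (hB c) 2
    have hmk := mul_meas_ge_le_integral_of_nonneg (μ := mu)
      (Filter.Eventually.of_forall fun c => sq_nonneg (Z c)) hint (((N : ℝ) ^ 3 / 2) ^ 2)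
    have hset : {c | ((N : ℝ) ^ 3 / 2) ^ 2 ≤ Z c ^ 2} = {c | (N : ℝ) ^ 3 / 2 ≤ |Z c|} := by
      ext c
      simp only [Set.mem_ofPred_eq]
      rw [← sq_abs (Z c)]
      exact pow_le_pow_iff_left₀ (by positivity) (abs_nonneg _) (by norm_num)
    rw [hset] at hmk
    have h4 : ((N : ℝ) ^ 3 / 2) ^ 2 * mu.real {c | (N : ℝ) ^ 3 / 2 ≤ |Z c|} ≤
        16 * (400 * (4 * (r : ℝ) + 1) ^ 4) ^ 2 * (4 * (2 * r + 1) + 1) ^ 3 * (N : ℝ) ^ 5 :=
      hmk.trans hvarZ
    have h5 : mu.real {c | (N : ℝ) ^ 3 / 2 ≤ |Z c|} ≤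
        64 * (400 * (4 * (r : ℝ) + 1) ^ 4) ^ 2 * (4 * (2 * r + 1) + 1) ^ 3 / N := by
      rw [le_div_iff₀ hNpos]
      have h6 : (0 : ℝ) < (N : ℝ) ^ 5 / 4 := by positivity
      refine le_of_mul_le_mul_left ?_ h6
      calc (N : ℝ) ^ 5 / 4 * (mu.real {c | (N : ℝ) ^ 3 / 2 ≤ |Z c|} * N)
          = ((N : ℝ) ^ 3 / 2) ^ 2 * mu.real {c | (N : ℝ) ^ 3 / 2 ≤ |Z c|} := by ring
        _ ≤ _ := h4
        _ = _ := by ring
    exact h5.trans_lt hvar
  -- the rotated events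
  set T : ℤ := N + 2 * r + 2 with hT
  have hmp := measurePreserving_rot T
  have hchebm : MeasurableSet {c | (N : ℝ) ^ 3 / 2 ≤ |Z c|} :=
    measurableSet_le measurable_const hZm.abs
  have hBad' : mu.real (rot T ⁻¹' Bad) < 1 / 8 := by
    unfold Measure.real
    rw [hmp.measure_preimage hBadm.nullMeasurableSet]
    exact hBadle
  have hcheb' : mu.real (rot T ⁻¹' {c | (N : ℝ) ^ 3 / 2 ≤ |Z c|}) < 1 / 8 := by
    unfold Measure.real
    rw [hmp.measure_preimage hchebm.nullMeasurableSet]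
    exact hcheb
  -- a configuration outside all four events
  have hex : ∃ c, c ∉ Bad ∧ c ∉ rot T ⁻¹' Bad ∧ c ∉ {c | (N : ℝ) ^ 3 / 2 ≤ |Z c|} ∧
      c ∉ rot T ⁻¹' {c | (N : ℝ) ^ 3 / 2 ≤ |Z c|} := by
    by_contra hno
    push Not at hno
    have huniv : (Set.univ : Set Col) ⊆ Bad ∪ (rot T ⁻¹' Bad ∪
        ({c | (N : ℝ) ^ 3 / 2 ≤ |Z c|} ∪ rot T ⁻¹' {c | (N : ℝ) ^ 3 / 2 ≤ |Z c|})) := by
      intro c _
      by_cases h1 : c ∈ Bad
      · exact Or.inl h1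
      by_cases h2 : c ∈ rot T ⁻¹' Bad
      · exact Or.inr (Or.inl h2)
      by_cases h3 : c ∈ {c | (N : ℝ) ^ 3 / 2 ≤ |Z c|}
      · exact Or.inr (Or.inr (Or.inl h3))
      exact Or.inr (Or.inr (Or.inr (hno c h1 h2 h3)))
    have h1 : mu.real (Set.univ : Set Col) ≤ _ := measureReal_mono huniv
    have h2 := measureReal_union_le (μ := mu) Bad (rot T ⁻¹' Bad ∪
        ({c | (N : ℝ) ^ 3 / 2 ≤ |Z c|} ∪ rot T ⁻¹' {c | (N : ℝ) ^ 3 / 2 ≤ |Z c|}))
    have h3 := measureReal_union_le (μ := mu) (rot T ⁻¹' Bad)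
        ({c | (N : ℝ) ^ 3 / 2 ≤ |Z c|} ∪ rot T ⁻¹' {c | (N : ℝ) ^ 3 / 2 ≤ |Z c|})
    have h4 := measureReal_union_le (μ := mu) {c | (N : ℝ) ^ 3 / 2 ≤ |Z c|}
        (rot T ⁻¹' {c | (N : ℝ) ^ 3 / 2 ≤ |Z c|})
    have h5 : mu.real (Set.univ : Set Col) = 1 := by simp
    linarith
  obtain ⟨c, hc1, hc2, hc3, hc4⟩ := hex
  obtain ⟨j, hj⟩ := Z_diff (c := c) (r := r) (N := N) (by linarith) hN1 (by linarith)
    (hgood c hc1) (hgood (rot T c) hc2)
  have hZZ : Z (rot T c) - Z c = (N : ℝ) ^ 3 * (1 + 3 * j) := by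
    rw [← hj, hZ]
    simp only [Finset.sum_sub_distrib]
    rw [hf]
    ring
  simp only [Set.mem_ofPred_eq, not_le, Set.mem_preimage] at hc3 hc4
  have habs : |Z (rot T c) - Z c| < (N : ℝ) ^ 3 := by
    have := abs_sub (Z (rot T c)) (Z c)
    linarith
  rw [hZZ, abs_mul, abs_of_pos (by positivity : (0 : ℝ) < (N : ℝ) ^ 3)] at habs
  have hN3 : (0 : ℝ) < (N : ℝ) ^ 3 := by positivity
  have h1 : |(1 + 3 * (j : ℝ))| < 1 := by
    by_contra hge
    push Not at hge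
    nlinarith
  have h2 : |1 + 3 * j| < 1 := by exact_mod_cast h1
  rw [abs_lt] at h2
  omega

end Pool.Agent.Helper94.Tri
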