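import Pool.Agent.Helper94.Tri.Curl
import Pool.Agent.Helper94.Tri.Local
import Pool.Agent.Helper94.Tri.Bound
import Pool.Agent.Helper94.Tri.Height

/-!
TR-10. Rotation of the colours on a half space changes every line sum by the same number, which is
`1` modulo `3`.

Put `c' = rot T c`. By `curlD12, curlD13, curlD23` and `exists_height` (with `K = 3*N`) there are
`g, g'` with `g (x+ei) = g x + Di c r x`, `g' (x+ei) = g' x + Di c' r x` for `x` in `[0,3N]^3`.
Put `f = g' - g`. If `x` is in `[0,3N]^3` and `x.1 ≤ N`, then `c' = c` on `cube x (2*r+1)` (as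
`N+2*r+1 < T`), so `Di c' r x = Di c r x` (`D1_congr` ... with `k = 0`), so `f (x+ei) = f x`. If
`x.1 ≥ 2*N`, then `c' = c + 1` on `cube x (2*r+1)`, and again `f (x+ei) = f x` (`k = 1`). So `f` is
constant on `[0,N]^3`, equal to `f 0`, and constant on `[2N,3N] × [0,N]^2`, equal to
`f (2N,0,0)` (induction in the three coordinates, staying in the box). By induction on `M ≤ 2N`,
`Sline c r M u = g (u.1+M, u.2.1, u.2.2) - g u` (`Finset.sum_range_succ`), same for `c'`. Hence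
`Sline c' r (2N) u - Sline c r (2N) u = f (2N,0,0) - f 0` for every `u` in `[0,N)^3`. Modulo `3`:
by `D1_cast` the sum telescopes, `(Sline c r M u : ZMod 3) = c (u.1+M,..) - c u`; at `u = 0`,
`M = 2N`: the difference is `(c (2N,0,0) + 1 - c 0) - (c (2N,0,0) - c 0) = 1` in `ZMod 3`, so it is
`1 + 3*k`.
-/

set_option linter.dupNamespace false

namespace Pool.Agent.Helper94.Tri

private theorem rot_const (f : V → ℤ) (a0 : ℤ) (A : ℕ)
    (h : ∀ x : V, a0 ≤ x.1 → x.1 ≤ a0 + A → 0 ≤ x.2.1 → x.2.1 ≤ A → 0 ≤ x.2.2 → x.2.2 ≤ A →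
      f (x + e1) = f x ∧ f (x + e2) = f x ∧ f (x + e3) = f x) :
    ∀ i j k : ℕ, i ≤ A → j ≤ A → k ≤ A → f (a0 + i, (j : ℤ), (k : ℤ)) = f (a0, 0, 0) := by
  have h1 : ∀ i : ℕ, i ≤ A → f (a0 + i, 0, 0) = f (a0, 0, 0) := by
    intro i
    induction i with
    | zero => intro _; simp
    | succ i ih =>
      intro hi
      have hx := (h (a0 + i, 0, 0) (by simp) (by simp; omega) le_rfl (by simp) le_rfl
        (by simp)).1
      have he : ((a0 + i, 0, 0) : V) + e1 = (a0 + ((i + 1 : ℕ) : ℤ), 0, 0) := by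
        simp [e1]; ring
      rw [he] at hx
      rw [hx]
      exact ih (by omega)
  have h2 : ∀ i j : ℕ, i ≤ A → j ≤ A → f (a0 + i, (j : ℤ), 0) = f (a0, 0, 0) := by
    intro i j hi
    induction j with
    | zero => intro _; simpa using h1 i hi
    | succ j ih =>
      intro hj
      have hx := (h (a0 + i, (j : ℤ), 0) (by simp) (by simp; omega) (by simp) (by simp; omega)
        le_rfl (by simp)).2.1
      have he : ((a0 + i, (j : ℤ), 0) : V) + e2 = (a0 + i, ((j + 1 : ℕ) : ℤ), 0) := by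
        simp [e2]
      rw [he] at hx
      rw [hx]
      exact ih (by omega)
  intro i j k hi hj
  induction k with
  | zero => intro _; simpa using h2 i j hi hj
  | succ k ih =>
    intro hk
    have hx := (h (a0 + i, (j : ℤ), (k : ℤ)) (by simp) (by simp; omega) (by simp)
      (by simp; omega) (by simp) (by simp; omega)).2.2
    have he : ((a0 + i, (j : ℤ), (k : ℤ)) : V) + e3 = (a0 + i, (j : ℤ), ((k + 1 : ℕ) : ℤ)) := by
      simp [e3]
    rw [he] at hx
    rw [hx]
    exact ih (by omega)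

private theorem rot_sline {c : Col} {r : ℤ} {N : ℤ} {g : V → ℤ}
    (hg : ∀ x, InBox 0 (3 * N) x → g (x + e1) = g x + D1 c r x) {u : V} (h1 : 0 ≤ u.1)
    (h1' : u.1 < N) (h2 : 0 ≤ u.2.1) (h2' : u.2.1 < N) (h3 : 0 ≤ u.2.2) (h3' : u.2.2 < N) :
    ∀ M : ℕ, (M : ℤ) ≤ 2 * N → Sline c r M u = g (u.1 + M, u.2.1, u.2.2) - g u := by
  intro M
  induction M with
  | zero => intro _; simp [Sline]
  | succ M ih =>
    intro hM
    push_cast at hM
    have hx := hg (u.1 + M, u.2.1, u.2.2) (by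
      unfold InBox
      simp only [Prod.fst_zero, Prod.snd_zero]
      refine ⟨⟨by omega, by omega⟩, ⟨by omega, by omega⟩, by omega, by omega⟩)
    have he : ((u.1 + M, u.2.1, u.2.2) : V) + e1 = (u.1 + ((M + 1 : ℕ) : ℤ), u.2.1, u.2.2) := by
      simp [e1]; ring
    rw [he] at hx
    have ih' := ih (by omega)
    unfold Sline at ih' ⊢
    rw [Finset.sum_range_succ, ih', hx]
    ring

private theorem rot_cast (c : Col) (r : ℤ) (u : V) : ∀ M : ℕ,
    ((Sline c r M u : ℤ) : ZMod 3) = c (u.1 + M, u.2.1, u.2.2) - c u := by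
  intro M
  induction M with
  | zero => simp [Sline]
  | succ M ih =>
    unfold Sline at ih ⊢
    rw [Finset.sum_range_succ]
    push_cast at ih ⊢
    rw [ih, D1_cast]
    have he : ((u.1 + M, u.2.1, u.2.2) : V) + e1 = (u.1 + ((M : ℤ) + 1), u.2.1, u.2.2) := by
      simp [e1]; ring
    rw [he]
    ring

theorem rot_diff {c : Col} {r N T : ℤ} (hr : 0 ≤ r) (hN : 1 ≤ N) (hT : N + 2 * r + 1 < T)
    (hT' : T + 2 * r + 1 ≤ 2 * N)
    (h : ∀ x, InBox 0 (3 * N) x → SmallAt c r x)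
    (h' : ∀ x, InBox 0 (3 * N) x → SmallAt (rot T c) r x) :
    ∃ k : ℤ, ∀ u : V, 0 ≤ u.1 → u.1 < N → 0 ≤ u.2.1 → u.2.1 < N → 0 ≤ u.2.2 → u.2.2 < N →
      Sline (rot T c) r (2 * N).toNat u - Sline c r (2 * N).toNat u = 1 + 3 * k := by
  obtain ⟨g, hg⟩ := exists_height (d1 := D1 c r) (d2 := D2 c r) (d3 := D3 c r) (K := 3 * N)
    (fun x hx => curlD12 hr (h x hx)) (fun x hx => curlD13 hr (h x hx))
    (fun x hx => curlD23 hr (h x hx))
  obtain ⟨g', hg'⟩ := exists_height (d1 := D1 (rot T c) r) (d2 := D2 (rot T c) r)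
    (d3 := D3 (rot T c) r) (K := 3 * N)
    (fun x hx => curlD12 hr (h' x hx)) (fun x hx => curlD13 hr (h' x hx))
    (fun x hx => curlD23 hr (h' x hx))
  have hA : ∀ x : V, x.1 ≤ N → ∀ y ∈ cube x (2 * r + 1), rot T c y = c y + 0 := by
    intro x hx y hy
    simp only [cube, Finset.mem_product, Finset.mem_Icc] at hy
    unfold rot
    rw [if_neg (by omega)]
    simp
  have hB : ∀ x : V, 2 * N ≤ x.1 → ∀ y ∈ cube x (2 * r + 1), rot T c y = c y + 1 := by
    intro x hx y hy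
    simp only [cube, Finset.mem_product, Finset.mem_Icc] at hy
    unfold rot
    rw [if_pos (by omega)]
  have hstep : ∀ x : V, InBox 0 (3 * N) x → (x.1 ≤ N ∨ 2 * N ≤ x.1) →
      (g' (x + e1) - g (x + e1) = g' x - g x ∧ g' (x + e2) - g (x + e2) = g' x - g x ∧
        g' (x + e3) - g (x + e3) = g' x - g x) := by
    intro x hx hx'
    obtain ⟨a1, a2, a3⟩ := hg x hx
    obtain ⟨b1, b2, b3⟩ := hg' x hx
    have hD : D1 (rot T c) r x = D1 c r x ∧ D2 (rot T c) r x = D2 c r x ∧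
        D3 (rot T c) r x = D3 c r x := by
      rcases hx' with hx' | hx'
      · exact ⟨D1_congr hr (hA x hx'), D2_congr hr (hA x hx'), D3_congr hr (hA x hx')⟩
      · exact ⟨D1_congr hr (hB x hx'), D2_congr hr (hB x hx'), D3_congr hr (hB x hx')⟩
    obtain ⟨d1, d2, d3⟩ := hD
    rw [a1, a2, a3, b1, b2, b3, d1, d2, d3]
    refine ⟨by ring, by ring, by ring⟩
  have hNn : ((N.toNat : ℕ) : ℤ) = N := Int.toNat_of_nonneg (by omega)
  have hc0 := rot_const (fun x => g' x - g x) 0 N.toNat (by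
    intro x x1 x1' x2 x2' x3 x3'
    rw [hNn] at x1' x2' x3'
    refine hstep x ?_ (Or.inl (by omega))
    unfold InBox
    simp only [Prod.fst_zero, Prod.snd_zero]
    refine ⟨⟨by omega, by omega⟩, ⟨by omega, by omega⟩, by omega, by omega⟩)
  have hc1 := rot_const (fun x => g' x - g x) (2 * N) N.toNat (by
    intro x x1 x1' x2 x2' x3 x3'
    rw [hNn] at x1' x2' x3'
    refine hstep x ?_ (Or.inr (by omega))
    unfold InBox
    simp only [Prod.fst_zero, Prod.snd_zero]
    refine ⟨⟨by omega, by omega⟩, ⟨by omega, by omega⟩, by omega, by omega⟩)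
  have hM : (((2 * N).toNat : ℕ) : ℤ) = 2 * N := Int.toNat_of_nonneg (by omega)
  have key : ∀ u : V, 0 ≤ u.1 → u.1 < N → 0 ≤ u.2.1 → u.2.1 < N → 0 ≤ u.2.2 → u.2.2 < N →
      Sline (rot T c) r (2 * N).toNat u - Sline c r (2 * N).toNat u
        = (g' (2 * N, 0, 0) - g (2 * N, 0, 0)) - (g' (0, 0, 0) - g (0, 0, 0)) := by
    intro u u1 u1' u2 u2' u3 u3'
    rw [rot_sline (fun x hx => (hg x hx).1) u1 u1' u2 u2' u3 u3' _ hM.le,
      rot_sline (fun x hx => (hg' x hx).1) u1 u1' u2 u2' u3 u3' _ hM.le, hM]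
    have k0 := hc0 u.1.toNat u.2.1.toNat u.2.2.toNat (by omega) (by omega) (by omega)
    have k1 := hc1 u.1.toNat u.2.1.toNat u.2.2.toNat (by omega) (by omega) (by omega)
    simp only [Int.toNat_of_nonneg u1, Int.toNat_of_nonneg u2, Int.toNat_of_nonneg u3,
      zero_add] at k0 k1
    have e0 : ((u.1, u.2.1, u.2.2) : V) = u := rfl
    rw [e0] at k0
    have e1' : ((u.1 + 2 * N, u.2.1, u.2.2) : V) = (2 * N + u.1, u.2.1, u.2.2) := by
      rw [add_comm]
    rw [e1']
    linarith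
  have hcast : ((((g' (2 * N, 0, 0) - g (2 * N, 0, 0)) - (g' (0, 0, 0) - g (0, 0, 0)) : ℤ)) :
      ZMod 3) = 1 := by
    rw [← key 0 (by simp) (by simp; omega) (by simp) (by simp; omega) (by simp)
      (by simp; omega)]
    push_cast
    rw [rot_cast, rot_cast, hM]
    simp only [Prod.fst_zero, Prod.snd_zero, zero_add]
    have r1 : rot T c (2 * N, 0, 0) = c (2 * N, 0, 0) + 1 := by
      unfold rot
      rw [if_pos (by simp; omega)]
    have r0 : rot T c 0 = c 0 := by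
      unfold rot
      rw [if_neg (by simp; omega)]
    rw [r1, r0]
    ring
  have hdvd : (3 : ℤ) ∣ ((g' (2 * N, 0, 0) - g (2 * N, 0, 0)) - (g' (0, 0, 0) - g (0, 0, 0)))
      - 1 := by
    have : ((((g' (2 * N, 0, 0) - g (2 * N, 0, 0)) - (g' (0, 0, 0) - g (0, 0, 0)) - 1 : ℤ)) :
      ZMod 3) = 0 := by
      rw [Int.cast_sub, hcast]
      simp
    exact (ZMod.intCast_zmod_eq_zero_iff_dvd _ 3).1 this
  obtain ⟨k, hk⟩ := hdvd
  refine ⟨k, fun u u1 u1' u2 u2' u3 u3' => ?_⟩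
  rw [key u u1 u1' u2 u2' u3 u3']
  linarith

end Pool.Agent.Helper94.Tri
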