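import Pool.Agent.Helper94.Tri.Fill12
import Pool.Agent.Helper94.Tri.Crossing

/-!
TR-12. If no annulus of scale `m` with centre near `x` is crossed, the components at `x` are small.

`mem_cube_of_rho`: with `v = x - y` and `A = -v1+v2+v3`, `B = v1-v2+v3`, `C = v1+v2-v3` one has
`2*v1 = B + C` and so on; `|v1| ≤ max(|B|,|C|) ≤ rho v`.

`smallAt_of_not_cross`: let `Tc c t`, `t.1 = x`. Let `C` be the set of all triangles `t'` with
`Conn c t t'`. (1) For such `t'`: `Tc c t'` (induction; or cases on the last step, `t` itself by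
hypothesis). (2) For `t', t''` with `Conn c t t'`, `Conn c t t''` and `t'.1 ∈ cube x (3*m)`:
`rho (t''.1 - t'.1) ≤ 3*m`, otherwise `cross_of_conn` (centre `t'.1`, from `t'` to `t''`, using
`conn_symm` and transitivity; `rho 0 = 0 ≤ m`) gives `Cross c t'.1 m`, contradicting `h`. With
`t' = t` (and `x ∈ cube x (3*m)`): all `t'` have `t'.1 ∈ cube x (3*m)` by `mem_cube_of_rho`. So `C`
is contained in `TB x (3*m)` (the other vertices are in `cube x (3*m+1)` because of `Tri`), define
it as the `filter` of `TB x (3*m)` (classical). Then the five clauses of `IsComp c (3*m) C`: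
nonempty (`t`), `Tc`, closed under neighbours (`Relation.ReflTransGen.tail`), connected
(symmetry and transitivity), and `t''.1 ∈ cube t'.1 (3*m)` by (2) and `mem_cube_of_rho`.
-/

set_option linter.dupNamespace false

namespace Pool.Agent.Helper94.Tri

theorem mem_cube_of_rho {x y : V} {R : ℤ} (h : rho (x - y) ≤ R) : x ∈ cube y R := by
  rw [mem_cube]
  obtain ⟨x1, x2, x3⟩ := x
  obtain ⟨y1, y2, y3⟩ := y
  simp only [rho, Prod.mk_sub_mk, max_le_iff, abs_le] at h
  simp only [abs_le]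
  obtain ⟨⟨h1, h2⟩, ⟨h3, h4⟩, h5, h6⟩ := h
  refine ⟨⟨?_, ?_⟩, ⟨?_, ?_⟩, ?_, ?_⟩ <;> linarith

private theorem sm_bit {x p q : V} {R : ℤ} (hp : p ∈ cube x R) (hb : Bit (q - p)) :
    q ∈ cube x (R + 1) := by
  rw [mem_cube] at hp ⊢
  obtain ⟨x1, x2, x3⟩ := x
  obtain ⟨p1, p2, p3⟩ := p
  obtain ⟨q1, q2, q3⟩ := q
  simp only [abs_le] at hp ⊢
  obtain ⟨h1, h2, h3⟩ := hb
  simp only [Prod.mk_sub_mk] at h1 h2 h3
  obtain ⟨⟨a1, a2⟩, ⟨a3, a4⟩, a5, a6⟩ := hp
  refine ⟨⟨?_, ?_⟩, ⟨?_, ?_⟩, ?_, ?_⟩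
  · rcases h1 with h | h <;> linarith
  · rcases h1 with h | h <;> linarith
  · rcases h2 with h | h <;> linarith
  · rcases h2 with h | h <;> linarith
  · rcases h3 with h | h <;> linarith
  · rcases h3 with h | h <;> linarith

theorem smallAt_of_not_cross {c : Col} {m : ℤ} (hm : 1 ≤ m) {x : V}
    (h : ∀ p ∈ cube x (3 * m), ¬ Cross c p m) : SmallAt c (3 * m) x := by
  classical
  intro t ht htx
  have hTc : ∀ t', Conn c t t' → Tc c t' := by
    intro t' h'
    induction h' with
    | refl => exact ht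
    | tail _ h2 _ => exact h2.2.1
  have key : ∀ t' t'', Conn c t t' → Conn c t t'' → t'.1 ∈ cube x (3 * m) →
      rho (t''.1 - t'.1) ≤ 3 * m := by
    intro t' t'' h' h'' hx'
    by_contra hc
    push Not at hc
    refine h t'.1 hx' (cross_of_conn hm (hTc t' h') ((conn_symm h').trans h'') (Or.inl ?_)
      (Or.inl hc))
    rw [sub_self]
    have : rho (0 : V) = 0 := by simp [rho]
    rw [this]
    linarith
  have hxx : t.1 ∈ cube x (3 * m) := by
    rw [htx, mem_cube]
    simp only [sub_self, abs_zero]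
    exact ⟨by linarith, by linarith, by linarith⟩
  have hcube : ∀ t', Conn c t t' → t'.1 ∈ cube x (3 * m) := by
    intro t' h'
    have h1 := key t t' Relation.ReflTransGen.refl h' hxx
    rw [htx] at h1
    exact mem_cube_of_rho h1
  have hTB : ∀ t', Conn c t t' → t' ∈ TB x (3 * m) := by
    intro t' h'
    have h1 := hcube t' h'
    have h2 := (hTc t' h').1
    unfold TB
    rw [Finset.mem_filter, Finset.mem_product, Finset.mem_product]
    exact ⟨⟨h1, sm_bit h1 h2.1.1, sm_bit h1 h2.2.2.1⟩, h2⟩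
  refine ⟨(TB x (3 * m)).filter (fun t' => Conn c t t'), ⟨?_, ?_, ?_, ?_, ?_⟩, ?_⟩
  · exact ⟨t, Finset.mem_filter.2 ⟨hTB t Relation.ReflTransGen.refl,
      Relation.ReflTransGen.refl⟩⟩
  · intro t' h'
    exact hTc t' (Finset.mem_filter.1 h').2
  · intro t' h' t'' hT hN
    have h1 := (Finset.mem_filter.1 h').2
    have h2 : Conn c t t'' := h1.tail ⟨hTc t' h1, hT, hN⟩
    exact Finset.mem_filter.2 ⟨hTB t'' h2, h2⟩
  · intro t' h' t'' h''
    exact (conn_symm (Finset.mem_filter.1 h').2).trans (Finset.mem_filter.1 h'').2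
  · intro t' h' t'' h''
    have h1 := (Finset.mem_filter.1 h').2
    have h2 := (Finset.mem_filter.1 h'').2
    exact mem_cube_of_rho (key t' t'' h1 h2 (hcube t' h1))
  · exact Finset.mem_filter.2 ⟨hTB t Relation.ReflTransGen.refl, Relation.ReflTransGen.refl⟩

end Pool.Agent.Helper94.Tri
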